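import Pool.Agent.Chow0.Pencil

/-!
# Families of zero-cycles given by resultants
-/

set_option autoImplicit false

open scoped LinearAlgebra.Projectivization
open Polynomial

namespace Pool.Agent.Chow0

variable {ι : Type} [Fintype ι] {S : Set (ℙ ℂ (ι → ℂ))}

/-- the value at `t`, `u` of a polynomial in two variables with coefficients in a polynomial ring -/
noncomputable def ev2 (t u : ℂ) (G : (MvPolynomial ι ℂ)[X][X]) : MvPolynomial ι ℂ :=
  (G.map (evalRingHom (MvPolynomial.C t))).eval (MvPolynomial.C u)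

/-- the Chow form of a member of a family -/
noncomputable def famForm (d m : ℕ) (Q : ℂ[X][X]) (G : (MvPolynomial ι ℂ)[X][X]) :
    (MvPolynomial ι ℂ)[X] :=
  resultant (Q.map cmap) G d m

omit [Fintype ι] in
lemma eval_famForm {d m : ℕ} {Q : ℂ[X][X]} {G : (MvPolynomial ι ℂ)[X][X]} (hQ : Q.natDegree ≤ d)
    (hG : G.natDegree ≤ m) {t : ℂ} (ht : (Q.coeff d).eval t ≠ 0) :
    (famForm d m Q G).eval (MvPolynomial.C t) =
      MvPolynomial.C (((Q.coeff d).eval t) ^ m) *
        ((spec t Q).roots.map fun u => ev2 t u G).prod := by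
  have h1 : (famForm d m Q G).eval (MvPolynomial.C t) =
      evalRingHom (MvPolynomial.C t) (famForm d m Q G) := rfl
  have hcomp : (evalRingHom (MvPolynomial.C t)).comp (cmap (ι := ι)) =
      (MvPolynomial.C : ℂ →+* MvPolynomial ι ℂ).comp (evalRingHom t) := by
    ext q
    · simp [cmap]
    · simp [cmap]
  have hQm : (Q.map (cmap (ι := ι))).map (evalRingHom (MvPolynomial.C t)) =
      (spec t Q).map MvPolynomial.C := by
    rw [Polynomial.map_map, hcomp, spec, Polynomial.map_map]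
  have hdeg : (spec t Q).natDegree = d := by
    apply le_antisymm
    · exact (natDegree_map_le).trans hQ
    · apply le_natDegree_of_ne_zero
      rw [spec, coeff_map]
      exact ht
  have hlc : (spec t Q).leadingCoeff = (Q.coeff d).eval t := by
    rw [leadingCoeff, hdeg, spec, coeff_map]
    rfl
  have hinj : Function.Injective (MvPolynomial.C : ℂ →+* MvPolynomial ι ℂ) :=
    MvPolynomial.C_injective _ _
  have hspl : (spec t Q).Splits := IsAlgClosed.splits _
  have hdeg' : ((spec t Q).map (MvPolynomial.C : ℂ →+* MvPolynomial ι ℂ)).natDegree = d := by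
    rw [natDegree_map_eq_of_injective hinj, hdeg]
  have hroots : ((spec t Q).map (MvPolynomial.C : ℂ →+* MvPolynomial ι ℂ)).roots =
      (spec t Q).roots.map MvPolynomial.C := by
    exact (hspl.roots_map MvPolynomial.C)
  rw [h1, famForm, ← resultant_map_map, hQm]
  have hGdeg : (G.map (evalRingHom (MvPolynomial.C t))).natDegree ≤ m :=
    (natDegree_map_le).trans hG
  have key := resultant_eq_prod_eval ((spec t Q).map (MvPolynomial.C : ℂ →+* MvPolynomial ι ℂ))
    _ m hGdeg (hspl.map _)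
  rw [hdeg', hroots, leadingCoeff_map_of_injective hinj, hlc, Multiset.map_map] at key
  rw [key, ← MvPolynomial.C_pow]
  rfl

lemma chowForm_add (s t : Multiset (ℙ ℂ (ι → ℂ))) :
    chowForm (s + t) = chowForm s * chowForm t := by
  simp [chowForm]

lemma isChowForm_prod {α : Type} {h : α → MvPolynomial ι ℂ} {r : Multiset α}
    {σ : Multiset (Multiset S)} (hr : Multiset.Rel (fun u s => IsChowForm S (h u) s) r σ) :
    IsChowForm S (r.map h).prod σ.sum := by
  induction hr with
  | zero => exact ⟨1, one_ne_zero, by simp [chowForm]⟩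
  | @cons u s r σ hu _ ih =>
    obtain ⟨c, hc, hcs⟩ := ih
    obtain ⟨a, ha, has⟩ := hu
    refine ⟨a * c, mul_ne_zero ha hc, ?_⟩
    rw [Multiset.map_cons, Multiset.prod_cons, hcs, has, Multiset.sum_cons, Multiset.map_add,
      chowForm_add, MvPolynomial.C_mul]
    ring

lemma IsChowForm.smul {G : MvPolynomial ι ℂ} {s : Multiset S} (h : IsChowForm S G s) {c : ℂ}
    (hc : c ≠ 0) : IsChowForm S (MvPolynomial.C c * G) s := by
  obtain ⟨a, ha, has⟩ := h
  refine ⟨c * a, mul_ne_zero hc ha, ?_⟩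
  rw [has, MvPolynomial.C_mul, mul_assoc]

lemma exists_rel {α β : Type} {R : α → β → Prop} (r : Multiset α) (h : ∀ u ∈ r, ∃ s, R u s) :
    ∃ σ, Multiset.Rel R r σ := by
  induction r using Multiset.induction_on with
  | empty => exact ⟨0, Multiset.Rel.zero⟩
  | cons u r ih =>
    obtain ⟨σ, hσ⟩ := ih fun v hv => h v (Multiset.mem_cons_of_mem hv)
    obtain ⟨s, hs⟩ := h u (Multiset.mem_cons_self u r)
    exact ⟨s ::ₘ σ, Multiset.Rel.cons hs hσ⟩

/-- **Family lemma.** -/
theorem cl_eq_of_family {d : ℕ} {Q : ℂ[X][X]} {G : (MvPolynomial ι ℂ)[X][X]}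
    (hQ : Q.natDegree ≤ d)
    (hS : ∀ᶠ t : ℂ in Filter.cofinite, ∀ u ∈ (spec t Q).roots, ∃ s, IsChowForm S (ev2 t u G) s)
    (h0 : (Q.coeff d).eval 0 ≠ 0) (h1 : (Q.coeff d).eval 1 ≠ 0) {σ₀ σ₁ : Multiset (Multiset S)}
    (hs₀ : Multiset.Rel (fun u s => IsChowForm S (ev2 0 u G) s) (spec 0 Q).roots σ₀)
    (hs₁ : Multiset.Rel (fun u s => IsChowForm S (ev2 1 u G) s) (spec 1 Q).roots σ₁) :
    cl σ₀.sum = cl σ₁.sum := by
  have hgood : ∀ t : ℂ, (Q.coeff d).eval t ≠ 0 → ∀ σ : Multiset (Multiset S),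
      Multiset.Rel (fun u s => IsChowForm S (ev2 t u G) s) (spec t Q).roots σ →
      IsChowForm S ((famForm d G.natDegree Q G).eval (MvPolynomial.C t)) σ.sum := by
    intro t ht σ hσ
    rw [eval_famForm hQ le_rfl ht]
    exact (isChowForm_prod hσ).smul (pow_ne_zero _ ht)
  apply IsLink.cl_eq
  refine ⟨famForm d G.natDegree Q G, ?_, hgood 0 h0 σ₀ hs₀, hgood 1 h1 σ₁ hs₁⟩
  have hQd : Q.coeff d ≠ 0 := by
    intro h
    rw [h, eval_zero] at h0
    exact h0 rfl
  have hfin2 : {t : ℂ | ¬ (Q.coeff d).eval t ≠ 0}.Finite := by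
    refine (Q.coeff d).roots.toFinset.finite_toSet.subset ?_
    intro t ht
    rw [Finset.mem_coe, Multiset.mem_toFinset, mem_roots hQd]
    exact not_not.1 ht
  have hev : ∀ᶠ t : ℂ in Filter.cofinite, (Q.coeff d).eval t ≠ 0 := by
    rw [Filter.eventually_cofinite]
    exact hfin2
  filter_upwards [hS, hev] with t ht ht'
  obtain ⟨σ, hσ⟩ := exists_rel _ ht
  exact ⟨σ.sum, hgood t ht' σ hσ⟩

end Pool.Agent.Chow0
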