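import Mathlib

/-!
# A bound for families of blocks meeting pairwise in at most one element
-/

set_option autoImplicit false

namespace Pool.Agent.Kummer2

variable {α : Type} [DecidableEq α]

/-- double counting of pairs -/
lemma sum_choose_two_le {B : Finset (Finset α)}
    (hB : ∀ b ∈ B, ∀ b' ∈ B, b ≠ b' → (b ∩ b').card ≤ 1) (T : Finset α) :
    ∑ b ∈ B, ((b ∩ T).card.choose 2) ≤ T.card.choose 2 := by
  have h1 : ∀ b ∈ B, ((b ∩ T).powersetCard 2) ⊆ T.powersetCard 2 := by
    intro b _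
    exact Finset.powersetCard_mono Finset.inter_subset_right
  have h2 : (B.biUnion fun b => (b ∩ T).powersetCard 2) ⊆ T.powersetCard 2 :=
    Finset.biUnion_subset.2 h1
  have h3 := Finset.card_le_card h2
  rw [Finset.card_biUnion, Finset.card_powersetCard] at h3
  · simpa using h3
  · intro b hb b' hb' hne
    rw [Function.onFun, Finset.disjoint_left]
    intro e he he'
    rw [Finset.mem_powersetCard] at he he'
    have h4 : e ⊆ b ∩ b' := by
      intro i hi
      exact Finset.mem_inter.2 ⟨(Finset.mem_inter.1 (he.1 hi)).1, (Finset.mem_inter.1 (he'.1 hi)).1⟩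
    have h5 := Finset.card_le_card h4
    rw [he.2] at h5
    exact absurd (h5.trans (hB b hb b' hb' hne)) (by norm_num)

lemma two_mul_choose_two (n : ℕ) : ((2 * n.choose 2 : ℕ) : ℤ) = n * (n - 1) := by
  induction n with
  | zero => simp
  | succ n ih =>
    rw [Nat.choose_succ_succ' n 1, Nat.choose_one_right]
    push_cast at ih ⊢
    linarith

/-- double counting, integral form -/
lemma sum_pairs_le {B : Finset (Finset α)}
    (hB : ∀ b ∈ B, ∀ b' ∈ B, b ≠ b' → (b ∩ b').card ≤ 1) (T : Finset α) :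
    ∑ b ∈ B, ((b ∩ T).card * ((b ∩ T).card - 1) : ℤ) ≤ T.card * (T.card - 1) := by
  have h := sum_choose_two_le hB T
  have h1 : (2 * ∑ b ∈ B, ((b ∩ T).card.choose 2) : ℕ) ≤ 2 * T.card.choose 2 :=
    Nat.mul_le_mul_left 2 h
  rw [Finset.mul_sum] at h1
  have h2 : ((∑ b ∈ B, 2 * ((b ∩ T).card.choose 2) : ℕ) : ℤ) ≤ ((2 * T.card.choose 2 : ℕ) : ℤ) := by
    exact_mod_cast h1
  rw [two_mul_choose_two, Nat.cast_sum] at h2
  refine le_trans (le_of_eq ?_) h2
  refine Finset.sum_congr rfl fun b _ => ?_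
  rw [two_mul_choose_two]

/-- the weight of a block -/
def wt (b : Finset α) : ℤ := ((b.card / 2 : ℕ) : ℤ) * (((b.card / 2 : ℕ) : ℤ) - 1)

omit [DecidableEq α] in
lemma wt_nonneg (b : Finset α) : 0 ≤ wt b := by
  rw [wt]
  rcases Nat.eq_zero_or_pos (b.card / 2) with h | h
  · rw [h]; simp
  · have : (1 : ℤ) ≤ ((b.card / 2 : ℕ) : ℤ) := by exact_mod_cast h
    nlinarith

/-- comparison of the weight of a block with the pairs outside a fixed block -/
lemma three_wt_le {b b₀ : Finset α} (h : (b ∩ b₀).card ≤ 1) {T : Finset α} (hT : b \ b₀ ⊆ T) :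
    3 * wt b ≤ (b ∩ T).card * ((b ∩ T).card - 1) := by
  have h1 : b.card ≤ (b ∩ T).card + 1 := by
    have h2 : (b \ b₀).card + (b ∩ b₀).card = b.card := Finset.card_sdiff_add_card_inter b b₀
    have h3 : (b \ b₀).card ≤ (b ∩ T).card :=
      Finset.card_le_card (Finset.subset_inter Finset.sdiff_subset hT)
    omega
  set a := (b ∩ T).card with ha
  set r := b.card / 2 with hr
  have h4 : 2 * r ≤ a + 1 := by omega
  rw [wt, ← hr]
  have h5 : (2 : ℤ) * r ≤ a + 1 := by exact_mod_cast h4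
  rcases Nat.lt_or_ge r 2 with h6 | h6
  · have h7 : r = 0 ∨ r = 1 := by omega
    have h8 : (0 : ℤ) ≤ a * (a - 1) := by
      rcases Nat.eq_zero_or_pos a with h9 | h9
      · rw [h9]; simp
      · have : (1 : ℤ) ≤ a := by exact_mod_cast h9
        nlinarith
    rcases h7 with h7 | h7 <;> rw [h7] <;> simpa using h8
  · have h7 : (2 : ℤ) ≤ r := by exact_mod_cast h6
    nlinarith

/-- comparison of the weight of a block with all pairs -/
lemma ratio_wt_le {b S : Finset α} (hb : b ⊆ S) {R : ℤ} (hR : 1 ≤ R)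
    (h : ((b.card / 2 : ℕ) : ℤ) ≤ R) :
    2 * (2 * R - 1) * wt b ≤ (R - 1) * ((b ∩ S).card * ((b ∩ S).card - 1)) := by
  rw [Finset.inter_eq_left.2 hb]
  set m := b.card with hm
  set r := m / 2 with hr
  have h1 : (2 : ℤ) * r ≤ m := by
    have : 2 * r ≤ m := by omega
    exact_mod_cast this
  rw [wt, ← hm, ← hr]
  rcases Nat.eq_zero_or_pos r with h2 | h2
  · rw [h2]
    have h3 : (0 : ℤ) ≤ m * (m - 1) := by
      rcases Nat.eq_zero_or_pos m with h9 | h9
      · rw [h9]; simp
      · have : (1 : ℤ) ≤ m := by exact_mod_cast h9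
        nlinarith
    have : 0 ≤ (R - 1) * ((m : ℤ) * (m - 1)) := mul_nonneg (by linarith) h3
    simpa using this
  · have h2' : (1 : ℤ) ≤ r := by exact_mod_cast h2
    have h3 : (2 * r : ℤ) * (2 * r - 1) ≤ m * (m - 1) := by nlinarith
    have h4 : (R - 1) * ((2 * r : ℤ) * (2 * r - 1)) ≤ (R - 1) * (m * (m - 1)) :=
      mul_le_mul_of_nonneg_left h3 (by linarith)
    refine le_trans ?_ h4
    have h5 : 0 ≤ (r : ℤ) * (R - r) := mul_nonneg (by linarith) (by linarith)
    nlinarith

/-- The refined count for blocks of size four. -/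
lemma four_blocks {S : Finset α} {B : Finset (Finset α)} {s : ℕ} (hS : S.card = 2 * s)
    (hsub : ∀ b ∈ B, b ⊆ S) (hB : ∀ b ∈ B, ∀ b' ∈ B, b ≠ b' → (b ∩ b').card ≤ 1)
    (h4 : ∀ b ∈ B, b.card = 4) {b₀ : Finset α} (hb₀ : b₀ ∈ B) :
    3 * ((B.card : ℤ) - 1) ≤ (2 * s - 4) * (s - 3 : ℤ) ∨ s < 3 := by
  rcases Nat.lt_or_ge s 3 with hs | hs
  · exact Or.inr hs
  left
  -- the blocks through an element outside `b₀`
  have key : ∀ j ∈ S \ b₀, (((B.erase b₀).filter fun b => j ∈ b).card : ℤ) ≤ s - 3 := by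
    intro j hj
    set D := (B.erase b₀).filter fun b => j ∈ b with hD
    have h1 : (D.biUnion fun b => (b \ b₀).erase j) ⊆ (S \ b₀).erase j := by
      intro i hi
      rw [Finset.mem_biUnion] at hi
      obtain ⟨b, hb, hib⟩ := hi
      rw [hD, Finset.mem_filter, Finset.mem_erase] at hb
      rw [Finset.mem_erase, Finset.mem_sdiff] at hib ⊢
      exact ⟨hib.1, hsub b hb.1.2 hib.2.1, hib.2.2⟩
    have h2 := Finset.card_le_card h1
    rw [Finset.card_biUnion, Finset.card_erase_of_mem hj, Finset.card_sdiff_of_subset (hsub b₀ hb₀),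
      hS, h4 b₀ hb₀] at h2
    · have h3 : ∑ b ∈ D, 2 ≤ ∑ b ∈ D, ((b \ b₀).erase j).card := by
        refine Finset.sum_le_sum fun b hb => ?_
        rw [hD, Finset.mem_filter, Finset.mem_erase] at hb
        have hjb : j ∈ b \ b₀ := Finset.mem_sdiff.2 ⟨hb.2, (Finset.mem_sdiff.1 hj).2⟩
        rw [Finset.card_erase_of_mem hjb]
        have h5 : (b \ b₀).card + (b ∩ b₀).card = b.card := Finset.card_sdiff_add_card_inter b b₀
        have h6 := hB b hb.1.2 b₀ hb₀ hb.1.1
        rw [h4 b hb.1.2] at h5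
        omega
      rw [Finset.sum_const, smul_eq_mul] at h3
      have h7 := h3.trans h2
      have h8 : D.card + 3 ≤ s := by omega
      have : ((D.card + 3 : ℕ) : ℤ) ≤ s := by exact_mod_cast h8
      push_cast at this
      linarith
    · intro b hb b' hb' hne
      rw [Function.onFun, Finset.disjoint_left]
      intro i hi hi'
      rw [Finset.mem_coe, hD, Finset.mem_filter, Finset.mem_erase] at hb hb'
      rw [Finset.mem_erase, Finset.mem_sdiff] at hi hi'
      have h9 : ({i, j} : Finset α) ⊆ b ∩ b' := by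
        intro k hk
        rw [Finset.mem_insert, Finset.mem_singleton] at hk
        rcases hk with rfl | rfl
        · exact Finset.mem_inter.2 ⟨hi.2.1, hi'.2.1⟩
        · exact Finset.mem_inter.2 ⟨hb.2, hb'.2⟩
      have h10 := Finset.card_le_card h9
      rw [Finset.card_pair hi.1] at h10
      exact absurd (h10.trans (hB b hb.1.2 b' hb'.1.2 hne)) (by norm_num)
  -- double counting
  have h1 : ∑ b ∈ B.erase b₀, (b \ b₀).card =
      ∑ j ∈ S \ b₀, ((B.erase b₀).filter fun b => j ∈ b).card := by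
    have h2 : ∀ b ∈ B.erase b₀, (b \ b₀).card = ((S \ b₀).filter fun j => j ∈ b).card := by
      intro b hb
      congr 1
      ext j
      rw [Finset.mem_sdiff, Finset.mem_filter, Finset.mem_sdiff]
      constructor
      · rintro ⟨h, h'⟩
        exact ⟨⟨hsub b (Finset.mem_of_mem_erase hb) h, h'⟩, h⟩
      · rintro ⟨⟨_, h'⟩, h⟩
        exact ⟨h, h'⟩
    rw [Finset.sum_congr rfl h2]
    simp only [Finset.card_filter]
    exact Finset.sum_comm
  have h2 : ((∑ b ∈ B.erase b₀, (b \ b₀).card : ℕ) : ℤ) ≤ (2 * s - 4) * (s - 3) := by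
    rw [h1]
    push_cast
    refine (Finset.sum_le_sum key).trans ?_
    rw [Finset.sum_const, nsmul_eq_mul, Finset.card_sdiff_of_subset (hsub b₀ hb₀), hS, h4 b₀ hb₀]
    rw [Nat.cast_sub (by omega)]
    push_cast
    exact le_rfl
  have h3 : (3 * (B.erase b₀).card : ℕ) ≤ ∑ b ∈ B.erase b₀, (b \ b₀).card := by
    rw [mul_comm, ← smul_eq_mul, ← Finset.sum_const]
    refine Finset.sum_le_sum fun b hb => ?_
    rw [Finset.mem_erase] at hb
    have h5 : (b \ b₀).card + (b ∩ b₀).card = b.card := Finset.card_sdiff_add_card_inter b b₀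
    have h6 := hB b hb.2 b₀ hb₀ hb.1
    rw [h4 b hb.2] at h5
    omega
  rw [Finset.card_erase_of_mem hb₀] at h3
  have h4' : 1 ≤ B.card := Finset.card_pos.2 ⟨b₀, hb₀⟩
  have h5 : ((3 * (B.card - 1) : ℕ) : ℤ) ≤ (2 * s - 4) * (s - 3) := by
    refine le_trans ?_ h2
    exact_mod_cast h3
  rw [Nat.cast_mul, Nat.cast_sub h4'] at h5
  exact_mod_cast h5

/-- **Bound for families of blocks.** Let `B` be a family of subsets, pairwise meeting in at most
one element and of size at most `2 s - 3`, of a set with `2 s` elements. Then the sum of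
`r (r - 1)`, `r = ⌊|b| / 2⌋`, over the blocks is smaller than `(s - 1) (s - 2)`. -/
theorem blocks_bound {S : Finset α} {B : Finset (Finset α)} {s : ℕ} (hs : 3 ≤ s)
    (hS : S.card = 2 * s) (hsub : ∀ b ∈ B, b ⊆ S)
    (hB : ∀ b ∈ B, ∀ b' ∈ B, b ≠ b' → (b ∩ b').card ≤ 1) (hM : ∀ b ∈ B, b.card + 3 ≤ 2 * s) :
    ∑ b ∈ B, wt b < ((s : ℤ) - 1) * (s - 2) := by
  have hs' : (3 : ℤ) ≤ s := by exact_mod_cast hs
  by_cases hsmall : ∀ b ∈ B, b.card ≤ 3
  · have h0 : ∑ b ∈ B, wt b = 0 := by
      refine Finset.sum_eq_zero fun b hb => ?_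
      have h1 := hsmall b hb
      have h2 : b.card / 2 = 0 ∨ b.card / 2 = 1 := by omega
      rw [wt]
      rcases h2 with h2 | h2 <;> rw [h2] <;> simp
    rw [h0]
    nlinarith
  push Not at hsmall
  obtain ⟨b₁, hb₁, hb₁'⟩ := hsmall
  obtain ⟨b₀, hb₀, hmax⟩ := Finset.exists_max_image B Finset.card ⟨b₁, hb₁⟩
  have hM4 : 4 ≤ b₀.card := hb₁'.trans_le (hmax b₁ hb₁)
  -- first inequality
  have hII : 3 * ∑ b ∈ B, wt b ≤
      3 * wt b₀ + ((2 * s : ℤ) - b₀.card) * ((2 * s : ℤ) - b₀.card - 1) := by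
    rw [← Finset.add_sum_erase B wt hb₀, mul_add, Finset.mul_sum]
    have h1 := sum_pairs_le (B := B.erase b₀) (fun b hb b' hb' hne => hB b
      (Finset.mem_of_mem_erase hb) b' (Finset.mem_of_mem_erase hb') hne) (S \ b₀)
    have h2 : ∑ b ∈ B.erase b₀, 3 * wt b ≤
        ∑ b ∈ B.erase b₀, ((b ∩ (S \ b₀)).card * ((b ∩ (S \ b₀)).card - 1) : ℤ) := by
      refine Finset.sum_le_sum fun b hb => ?_
      rw [Finset.mem_erase] at hb
      exact three_wt_le (hB b hb.2 b₀ hb₀ hb.1) (Finset.sdiff_subset_sdiff (hsub b hb.2) le_rfl)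
    have h3 : ((S \ b₀).card : ℤ) = (2 * s : ℤ) - b₀.card := by
      rw [Finset.card_sdiff_of_subset (hsub b₀ hb₀), hS, Nat.cast_sub (by have := hM b₀ hb₀; omega)]
      push_cast
      ring
    rw [h3] at h1
    linarith
  -- second inequality
  have hIII : ∀ R : ℕ, 1 ≤ R → b₀.card / 2 ≤ R →
      (2 * (R : ℤ) - 1) * ∑ b ∈ B, wt b ≤ ((R : ℤ) - 1) * (s * (2 * s - 1)) := by
    intro R hR hR'
    have h1 := sum_pairs_le hB S
    have h2 : ∑ b ∈ B, 2 * (2 * (R : ℤ) - 1) * wt b ≤
        ∑ b ∈ B, ((R : ℤ) - 1) * ((b ∩ S).card * ((b ∩ S).card - 1)) := by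
      refine Finset.sum_le_sum fun b hb => ?_
      refine ratio_wt_le (hsub b hb) (by exact_mod_cast hR) ?_
      have : b.card / 2 ≤ R := (Nat.div_le_div_right (hmax b hb)).trans hR'
      exact_mod_cast this
    rw [← Finset.mul_sum, ← Finset.mul_sum] at h2
    have h3 : (0 : ℤ) ≤ (R : ℤ) - 1 := by
      have : (1 : ℤ) ≤ R := by exact_mod_cast hR
      linarith
    have h4 := mul_le_mul_of_nonneg_left h1 h3
    rw [hS] at h4
    push_cast at h4
    nlinarith
  have hMs := hM b₀ hb₀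
  obtain ⟨R, hR⟩ : ∃ R, b₀.card / 2 = R := ⟨_, rfl⟩
  have hwt₀ : wt b₀ = (R : ℤ) * (R - 1) := by rw [wt, hR]
  have hR2 : 2 ≤ R := by omega
  set W := ∑ b ∈ B, wt b with hW
  rcases Nat.lt_or_ge s (5 * R - 2) with hlt | hge
  · -- few lines
    rcases Nat.lt_or_ge R 3 with hR3 | hR3
    · have hR2' : R = 2 := by omega
      subst hR2'
      rw [hwt₀] at hII
      have hs8 : s < 8 := by omega
      have hcard : b₀.card = 4 ∨ b₀.card = 5 := by omega
      rcases hcard with hc | hc
      · -- blocks of size at most four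
        have hle : ∀ b ∈ B, b.card ≤ 4 := fun b hb => (hmax b hb).trans hc.le
        set B4 := B.filter fun b => b.card = 4 with hB4
        have hsum : W = 2 * (B4.card : ℤ) := by
          rw [hW, ← Finset.sum_filter_add_sum_filter_not B (fun b => b.card = 4), ← hB4]
          have h1 : ∑ b ∈ B4, wt b = ∑ _b ∈ B4, (2 : ℤ) := by
            refine Finset.sum_congr rfl fun b hb => ?_
            rw [hB4, Finset.mem_filter] at hb
            rw [wt, hb.2]
            norm_num
          have h2 : ∑ b ∈ B.filter (fun b => ¬ b.card = 4), wt b = 0 := by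
            refine Finset.sum_eq_zero fun b hb => ?_
            rw [Finset.mem_filter] at hb
            have h3 := hle b hb.1
            have h4 : b.card / 2 = 0 ∨ b.card / 2 = 1 := by omega
            rw [wt]
            rcases h4 with h4 | h4 <;> rw [h4] <;> simp
          rw [h1, h2, Finset.sum_const, nsmul_eq_mul]
          ring
        have h4 := four_blocks (B := B4) hS (fun b hb => hsub b (Finset.mem_filter.1 hb).1)
          (fun b hb b' hb' hne => hB b (Finset.mem_filter.1 hb).1 b' (Finset.mem_filter.1 hb').1 hne)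
          (fun b hb => (Finset.mem_filter.1 hb).2) (Finset.mem_filter.2 ⟨hb₀, hc⟩)
        rcases h4 with h4 | h4
        · rw [hsum]
          have h5 : s = 4 ∨ s = 5 ∨ s = 6 ∨ s = 7 := by omega
          rcases h5 with rfl | rfl | rfl | rfl <;> push_cast at h4 ⊢ <;> omega
        · omega
      · rw [hc] at hII
        have h5 : s = 4 ∨ s = 5 ∨ s = 6 ∨ s = 7 := by omega
        rcases h5 with rfl | rfl | rfl | rfl <;> push_cast at hII ⊢ <;> omega
    · -- large blocks
      rw [hwt₀] at hII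
      obtain ⟨k, hk⟩ : ∃ k, s = R + k := ⟨s - R, by omega⟩
      have hR3' : (3 : ℤ) ≤ R := by exact_mod_cast hR3
      have hk4 : (k : ℤ) ≤ 4 * R - 3 := by
        have : k + 3 ≤ 4 * R := by omega
        have : ((k + 3 : ℕ) : ℤ) ≤ 4 * R := by exact_mod_cast this
        push_cast at this
        linarith
      have hk2 : (2 : ℤ) ≤ k := by
        have : 2 ≤ k := by omega
        exact_mod_cast this
      have hsk : (s : ℤ) = R + k := by exact_mod_cast hk
      have hcard : b₀.card = 2 * R ∨ b₀.card = 2 * R + 1 := by omega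
      rcases hcard with hc | hc
      · rw [hc, hsk] at hII
        push_cast at hII
        rw [hsk]
        nlinarith [mul_nonneg (sub_nonneg.2 hk2) (sub_nonneg.2 hk4),
          mul_nonneg (by linarith : (0 : ℤ) ≤ k) (sub_nonneg.2 hR3')]
      · rw [hc, hsk] at hII
        push_cast at hII
        rw [hsk]
        nlinarith [mul_nonneg (sub_nonneg.2 hk2) (sub_nonneg.2 hk4),
          mul_nonneg (by linarith : (0 : ℤ) ≤ k) (sub_nonneg.2 hR3')]
  · -- many lines
    have h1 := hIII R (by omega) hR.le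
    have hR2' : (2 : ℤ) ≤ R := by exact_mod_cast hR2
    have hge' : (5 : ℤ) * R - 2 ≤ s := by
      have : 5 * R ≤ s + 2 := by omega
      have : ((5 * R : ℕ) : ℤ) ≤ ((s + 2 : ℕ) : ℤ) := by exact_mod_cast this
      push_cast at this
      linarith
    by_contra hcon
    push Not at hcon
    have h2 : (2 * (R : ℤ) - 1) * (((s : ℤ) - 1) * (s - 2)) ≤ (2 * (R : ℤ) - 1) * W :=
      mul_le_mul_of_nonneg_left hcon (by linarith)
    have h3 := h2.trans h1
    nlinarith [mul_nonneg (by linarith : (0 : ℤ) ≤ s) (sub_nonneg.2 hge')]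

end Pool.Agent.Kummer2
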