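import Pool.Agent.Kummer2.Order
import Pool.Agent.Kummer2.Blocks

/-!
# Existence of adjoint forms
-/

set_option autoImplicit false

open Polynomial

namespace Pool.Agent.Kummer2

/-- the monomials of degree less than `k` in two variables -/
def tri (k : ℕ) : Finset (Σ _ : ℕ, ℕ × ℕ) := (Finset.range k).sigma fun n => Finset.HasAntidiagonal.antidiagonal n

lemma two_card_tri (k : ℕ) : 2 * (tri k).card = k * (k + 1) := by
  rw [tri, Finset.card_sigma]
  simp only [Finset.Nat.card_antidiagonal]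
  induction k with
  | zero => simp
  | succ k ih =>
    rw [Finset.sum_range_succ, mul_add, ih]
    ring

lemma exists_complement {x : Fin 3 → ℂ} (hx : x ≠ 0) : ∃ u v : Fin 3 → ℂ, ∀ y : Fin 3 → ℂ,
    ∃ c a b : ℂ, y = fun j => c * x j + (a * u j + b * v j) := by
  obtain ⟨i, hi⟩ := Function.ne_iff.1 hx
  rw [Pi.zero_apply] at hi
  fin_cases i
  · refine ⟨![0, 1, 0], ![0, 0, 1], fun y => ⟨y 0 / x 0, y 1 - y 0 / x 0 * x 1,
      y 2 - y 0 / x 0 * x 2, ?_⟩⟩
    have hi' : x 0 ≠ 0 := hi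
    funext j
    fin_cases j <;> simp [hi']
  · refine ⟨![1, 0, 0], ![0, 0, 1], fun y => ⟨y 1 / x 1, y 0 - y 1 / x 1 * x 0,
      y 2 - y 1 / x 1 * x 2, ?_⟩⟩
    have hi' : x 1 ≠ 0 := hi
    funext j
    fin_cases j <;> simp [hi']
  · refine ⟨![1, 0, 0], ![0, 1, 0], fun y => ⟨y 2 / x 2, y 0 - y 2 / x 2 * x 0,
      y 1 - y 2 / x 2 * x 1, ?_⟩⟩
    have hi' : x 2 ≠ 0 := hi
    funext j
    fin_cases j <;> simp [hi']

/-- the exponent of a ternary monomial of degree `e` -/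
noncomputable def expo (e : ℕ) (q : Σ _ : ℕ, ℕ × ℕ) : Fin 3 →₀ ℕ :=
  Finsupp.single 0 q.2.1 + Finsupp.single 1 q.2.2 + Finsupp.single 2 (e - q.1)

lemma expo_injOn (e : ℕ) : Set.InjOn (expo e) (tri (e + 1) : Set (Σ _ : ℕ, ℕ × ℕ)) := by
  rintro ⟨n, a, b⟩ hq ⟨n', a', b'⟩ hq' h
  rw [Finset.mem_coe, tri, Finset.mem_sigma, Finset.HasAntidiagonal.mem_antidiagonal] at hq hq'
  have h0 := DFunLike.congr_fun h 0
  have h1 := DFunLike.congr_fun h 1
  simp [expo] at h0 h1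
  obtain ⟨_, hq⟩ := hq
  obtain ⟨_, hq'⟩ := hq'
  simp only at hq hq'
  subst h0 h1 hq hq'
  rfl

/-- the form with given coefficients -/
noncomputable def formL (e : ℕ) : (tri (e + 1) → ℂ) →ₗ[ℂ] MvPolynomial (Fin 3) ℂ :=
  ∑ q : tri (e + 1), (MvPolynomial.monomial (expo e q)).comp (LinearMap.proj q)

lemma formL_apply (e : ℕ) (c : tri (e + 1) → ℂ) :
    formL e c = ∑ q : tri (e + 1), MvPolynomial.monomial (expo e q) (c q) := by
  simp [formL, LinearMap.sum_apply]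

lemma formL_isHomogeneous (e : ℕ) (c : tri (e + 1) → ℂ) : (formL e c).IsHomogeneous e := by
  rw [formL_apply]
  refine MvPolynomial.IsHomogeneous.sum _ _ _ fun q _ => ?_
  refine MvPolynomial.isHomogeneous_monomial _ ?_
  obtain ⟨⟨n, a, b⟩, hq⟩ := q
  rw [tri, Finset.mem_sigma, Finset.HasAntidiagonal.mem_antidiagonal, Finset.mem_range] at hq
  simp only [expo, map_add, Finsupp.degree_single]
  simp only at hq
  omega

lemma formL_ne_zero (e : ℕ) {c : tri (e + 1) → ℂ} (hc : c ≠ 0) : formL e c ≠ 0 := by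
  obtain ⟨q, hq⟩ := Function.ne_iff.1 hc
  intro h
  apply hq
  have h1 := congrArg (MvPolynomial.coeff (expo e q)) h
  rw [formL_apply, MvPolynomial.coeff_sum, Finset.sum_eq_single q] at h1
  · rw [MvPolynomial.coeff_monomial, if_pos rfl, MvPolynomial.coeff_zero] at h1
    exact h1
  · intro q' _ hne
    rw [MvPolynomial.coeff_monomial, if_neg]
    intro heq
    exact hne (Subtype.ext (expo_injOn e q'.2 q.2 heq))
  · intro h2
    exact absurd (Finset.mem_univ q) h2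

/-- the exponent of a binary monomial -/
noncomputable def expo₂ (q : Σ _ : ℕ, ℕ × ℕ) : Fin 2 →₀ ℕ :=
  Finsupp.single 0 q.2.1 + Finsupp.single 1 q.2.2

/-- a coefficient of the restriction to a plane, as a linear functional -/
noncomputable def coeffL (x u v : Fin 3 → ℂ) (d : Fin 2 →₀ ℕ) : MvPolynomial (Fin 3) ℂ →ₗ[ℂ] ℂ where
  toFun P := (planar P x u v).coeff d
  map_add' P Q := by simp [planar]
  map_smul' c P := by simp [planar]

/-- **Dimension count.** -/
theorem exists_form {β : Type} (B : Finset β) (x : β → Fin 3 → ℂ) (hx : ∀ b, x b ≠ 0)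
    (k : β → ℕ) (e : ℕ) (h : ∑ b ∈ B, k b * (k b + 1) < (e + 1) * (e + 2)) :
    ∃ P : MvPolynomial (Fin 3) ℂ, P ≠ 0 ∧ P.IsHomogeneous e ∧
      ∀ b ∈ B, VanishesTo P (x b) (k b) := by
  choose u v huv using fun b => exists_complement (hx b)
  let L : (tri (e + 1) → ℂ) →ₗ[ℂ] ((Σ b : B, tri (k b)) → ℂ) :=
    LinearMap.pi fun q => (coeffL (x q.1) (u q.1) (v q.1) (expo₂ q.2)).comp (formL e)
  have hlt : Module.finrank ℂ ((Σ b : B, tri (k b)) → ℂ) < Module.finrank ℂ (tri (e + 1) → ℂ) := by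
    rw [Module.finrank_fintype_fun_eq_card, Module.finrank_fintype_fun_eq_card, Fintype.card_sigma]
    simp only [Fintype.card_coe]
    have h1 : 2 * (∑ b : B, (tri (k b)).card) < 2 * (tri (e + 1)).card := by
      rw [two_card_tri, Finset.mul_sum]
      simp only [two_card_tri]
      rw [Finset.sum_coe_sort B (fun b => k b * (k b + 1))]
      exact h
    omega
  have hker := LinearMap.ker_ne_bot_of_finrank_lt (f := L) hlt
  obtain ⟨c, hc, hc0⟩ := (Submodule.ne_bot_iff _).1 hker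
  rw [LinearMap.mem_ker] at hc
  refine ⟨formL e c, formL_ne_zero e hc0, formL_isHomogeneous e c, ?_⟩
  intro b hb y
  obtain ⟨γ, α, β', rfl⟩ := huv b y
  refine X_pow_dvd_restr (formL_isHomogeneous e c) ?_ γ
  refine X_pow_dvd_restr_of_planar ?_ α β'
  intro d hd
  have hq : (⟨d 0 + d 1, (d 0, d 1)⟩ : Σ _ : ℕ, ℕ × ℕ) ∈ tri (k b) := by
    rw [tri, Finset.mem_sigma, Finset.mem_range, Finset.HasAntidiagonal.mem_antidiagonal]
    exact ⟨hd, rfl⟩
  have h1 := congrFun hc ⟨⟨b, hb⟩, ⟨_, hq⟩⟩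
  have h2 : expo₂ ⟨d 0 + d 1, (d 0, d 1)⟩ = d := by
    ext i
    fin_cases i <;> simp [expo₂]
  have h3 : (planar (formL e c) (x b) (u b) (v b)).coeff (expo₂ ⟨d 0 + d 1, (d 0, d 1)⟩) = 0 := h1
  rw [h2] at h3
  exact h3

end Pool.Agent.Kummer2
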