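import Pool.Agent.Kummer2.Restrict

/-!
# Isotypic parts attached to concurrent lines
-/

set_option autoImplicit false
set_option linter.unusedSectionVars false

open scoped LinearAlgebra.Projectivization

namespace Pool.Agent.Kummer2

open Pool.Agent.Chow0 MvPolynomial

variable {ι : Type} [Fintype ι] [DecidableEq ι] {l : ι → Fin 3 → ℂ} {T : Finset ι}

/-- a subset of `T` as a subset of the index set -/
def up (S : Finset T) : Finset ι := S.map (Function.Embedding.subtype _)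

omit [Fintype ι] [DecidableEq ι] in
lemma prod_up (S : Finset T) (v : ι → ℂ) : ∏ i ∈ up S, v i = ∏ i ∈ S, v i := by
  rw [up, Finset.prod_map]
  rfl

omit [Fintype ι] [DecidableEq ι] in
lemma card_up (S : Finset T) : (up S).card = S.card := by rw [up, Finset.card_map]

omit [Fintype ι] [DecidableEq ι] in
lemma mem_up {S : Finset T} {i : ι} : i ∈ up S ↔ ∃ h : i ∈ T, (⟨i, h⟩ : T) ∈ S := by
  rw [up, Finset.mem_map]
  constructor
  · rintro ⟨⟨j, hj⟩, h, rfl⟩
    exact ⟨hj, h⟩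
  · rintro ⟨h, h'⟩
    exact ⟨⟨i, h⟩, h', rfl⟩

/-- the class of the orbits over a point of the curve -/
noncomputable def crv (l : ι → Fin 3 → ℂ) (S : Finset T) (ε : ℂ)
    (c : Cover fun i : T => l i) : CH0 (Cover l) := by
  classical
  exact
    if h : (∃ z : Cover l, ∃ x : Fin 3 → ℂ,
        (∀ i : T, ev (l i) x = (c : ℙ ℂ (T → ℂ)).rep i ^ 2) ∧
        Ov l (up S) z x (ε * ∏ i ∈ S, (c : ℙ ℂ (T → ℂ)).rep i))
    then cl (orb l (up S) h.choose) else 0

lemma crv_eq {S : Finset T} (hS : S.Nonempty) {ε : ℂ} {c : Cover fun i : T => l i}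
    {u : T → ℂ} (hu : IsRep u (c : ℙ ℂ (T → ℂ))) {z : Cover l} {x : Fin 3 → ℂ}
    (hx : ∀ i : T, ev (l i) x = u i ^ 2) (h : Ov l (up S) z x (ε * ∏ i ∈ S, u i)) :
    crv l S ε c = cl (orb l (up S) z) := by
  classical
  obtain ⟨hu0, hu1⟩ := hu
  obtain ⟨a, ha⟩ := Projectivization.exists_smul_eq_mk_rep ℂ u hu0
  rw [hu1, Units.smul_def] at ha
  have hrep : ∀ i, (c : ℙ ℂ (T → ℂ)).rep i = (a : ℂ) * u i := fun i => by rw [← ha]; rfl
  have h1 := h.scale (c := (a : ℂ)) a.ne_zero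
  have h2 : (a : ℂ) ^ (up S).card * (ε * ∏ i ∈ S, u i) =
      ε * ∏ i ∈ S, (c : ℙ ℂ (T → ℂ)).rep i := by
    rw [card_up]
    simp only [hrep, Finset.prod_mul_distrib, Finset.prod_const]
    ring
  rw [h2] at h1
  have h3 : ∀ i : T, ev (l i) (fun j => (a : ℂ) ^ 2 * x j) = (c : ℙ ℂ (T → ℂ)).rep i ^ 2 := by
    intro i
    rw [ev_smul, hx, hrep, mul_pow]
  have hex : ∃ z : Cover l, ∃ x : Fin 3 → ℂ,
      (∀ i : T, ev (l i) x = (c : ℙ ℂ (T → ℂ)).rep i ^ 2) ∧
      Ov l (up S) z x (ε * ∏ i ∈ S, (c : ℙ ℂ (T → ℂ)).rep i) := ⟨z, _, h3, h1⟩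
  rw [crv, dif_pos hex]
  obtain ⟨x₁, hx₁, hz₁⟩ := hex.choose_spec
  refine cl_orb_eq_of_ov ?_ hz₁ h1 ?_
  · rw [← Finset.card_pos, card_up]
    exact Finset.card_pos.2 hS
  · intro i hi
    obtain ⟨hiT, -⟩ := mem_up.1 hi
    exact (hx₁ ⟨i, hiT⟩).trans (h3 ⟨i, hiT⟩).symm

section Transfer

variable (l) (S : Finset T) (a b : T) (e f p : Fin 3 → ℂ) (r ε : ℂ)

/-- the point of the plane over a point of the curve -/
def pnt (u : T → ℂ) : Fin 3 → ℂ := fun j => u a ^ 2 * (e j + r * p j) + u b ^ 2 * f j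

omit [Fintype ι] [DecidableEq ι] in
lemma ev_pnt (i : ι) (u : T → ℂ) : ev (l i) (pnt a b e f p r u) =
    u a ^ 2 * (ev (l i) e + r * ev (l i) p) + u b ^ 2 * ev (l i) f := by
  simp only [ev, pnt, Fin.sum_univ_three]
  ring

/-- the coordinates as polynomials -/
noncomputable def crd (i : ι) : MvPolynomial T (MvPolynomial ι ℂ) :=
  X a ^ 2 * C (C (ev (l i) e + r * ev (l i) p)) + X b ^ 2 * C (C (ev (l i) f))

omit [Fintype ι] [DecidableEq ι] in
lemma eval_crd (i : ι) (u : T → ℂ) :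
    eval (fun i => (C (u i) : MvPolynomial ι ℂ)) (crd l a b e f p r i) =
      C (ev (l i) (pnt a b e f p r u)) := by
  rw [ev_pnt, crd]
  simp only [map_add, map_mul, map_pow, eval_X, eval_C]

/-- the Chow form of an orbit as a polynomial -/
noncomputable def phi : MvPolynomial T (MvPolynomial ι ℂ) :=
  eval₂ C (crd l a b e f p r) (exists_forms (up S)).choose +
    (C (C ε) * ∏ i ∈ S, X i) *
      eval₂ C (crd l a b e f p r) (exists_forms (up S)).choose_spec.choose

lemma eval_phi (u : T → ℂ) :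
    eval (fun i => (C (u i) : MvPolynomial ι ℂ)) (phi l S a b e f p r ε) =
      frm (up S) (fun i => ev (l i) (pnt a b e f p r u)) (ε * ∏ i ∈ S, u i) := by
  have h1 : ∀ P : MvPolynomial ι (MvPolynomial ι ℂ),
      eval (fun i => (C (u i) : MvPolynomial ι ℂ)) (eval₂ C (crd l a b e f p r) P) =
        eval (fun i => (C (ev (l i) (pnt a b e f p r u)) : MvPolynomial ι ℂ)) P := by
    intro P
    have h2 := hom_eval₂ P (C : MvPolynomial ι ℂ →+* MvPolynomial T (MvPolynomial ι ℂ))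
      (eval (fun i => (C (u i) : MvPolynomial ι ℂ))) (crd l a b e f p r)
    have h3 : (eval (fun i => (C (u i) : MvPolynomial ι ℂ))).comp
        (C : MvPolynomial ι ℂ →+* MvPolynomial T (MvPolynomial ι ℂ)) = RingHom.id _ := by
      apply RingHom.ext
      intro q
      rw [RingHom.comp_apply, eval_C]
      rfl
    rw [h3] at h2
    simp only [eval_crd] at h2
    exact h2
  rw [phi, map_add, map_mul, h1, h1, frm]
  congr 2
  rw [map_mul, eval_C, map_prod]
  simp only [eval_X]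
  rw [C_mul, map_prod]

/-- the condition that the point lies outside of the other lines -/
noncomputable def psi (T : Finset ι) (a b : T) (l : ι → Fin 3 → ℂ) (e f p : Fin 3 → ℂ) (r : ℂ) :
    MvPolynomial T ℂ :=
  ∏ i ∈ Finset.univ \ T, (X a ^ 2 * C (ev (l i) e + r * ev (l i) p) + X b ^ 2 * C (ev (l i) f))

lemma eval_psi (u : T → ℂ) : eval u (psi T a b l e f p r) =
    ∏ i ∈ Finset.univ \ T, ev (l i) (pnt a b e f p r u) := by
  rw [psi, map_prod]
  refine Finset.prod_congr rfl fun i _ => ?_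
  rw [ev_pnt]
  simp only [map_add, map_mul, map_pow, eval_X, eval_C]

end Transfer

/-- points of the curve -/
lemma rep_sq {c : Cover fun i : T => l i} {u : T → ℂ} (hu : IsRep u (c : ℙ ℂ (T → ℂ))) :
    (∀ i, u i ≠ 0) ∧ ∃ x : Fin 3 → ℂ, ∀ i : T, u i ^ 2 = ev (l i) x := by
  obtain ⟨hu0, hu1⟩ := hu
  obtain ⟨a, ha⟩ := Projectivization.exists_smul_eq_mk_rep ℂ u hu0
  rw [hu1, Units.smul_def] at ha
  have hrep : ∀ i, (c : ℙ ℂ (T → ℂ)).rep i = (a : ℂ) * u i := fun i => by rw [← ha]; rfl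
  obtain ⟨h1, x, hx⟩ := c.2
  refine ⟨fun i h => h1 i (by rw [hrep, h, mul_zero]), fun j => ((a : ℂ)⁻¹) ^ 2 * x j, fun i => ?_⟩
  rw [ev_smul]
  have h2 := hx i
  rw [hrep, mul_pow] at h2
  rw [← h2, ← mul_assoc, ← mul_pow, inv_mul_cancel₀ a.ne_zero, one_pow, one_mul]

lemma ev_pnt_mem (hl : Distinct l) {p : Fin 3 → ℂ} (hp : p ≠ 0) (hT : T = thru l Finset.univ p)
    {a b : T} (hab : a ≠ b) {e f : Fin 3 → ℂ} (h1 : ev (l a) e = 1) (h2 : ev (l b) e = 0)
    (h3 : ev (l a) f = 0) (h4 : ev (l b) f = 1) (r : ℂ)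
    {c : Cover fun i : T => l i} {u : T → ℂ} (hu : IsRep u (c : ℙ ℂ (T → ℂ))) (i : T) :
    ev (l i) (pnt a b e f p r u) = u i ^ 2 := by
  obtain ⟨-, x, hx⟩ := rep_sq hu
  have hpT : ∀ i : T, ev (l i) p = 0 := by
    intro i
    have h5 : (i : ι) ∈ thru l Finset.univ p := by
      rw [← hT]
      exact i.2
    exact (mem_thru.1 h5).2
  rw [ev_pnt, hpT, mul_zero, add_zero, hx, hx, hx,
    ev_comb_of_concurrent (hl a b (fun h => hab (Subtype.ext h))) hp (hpT a) (hpT b) (hpT i)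
      h1 h2 h3 h4 x]

/-- **The classes of the orbits over the points of the curve are compatible with rational
equivalence.** -/
theorem crv_link (hl : Distinct l) {p : Fin 3 → ℂ} (hp : p ≠ 0) (hT : T = thru l Finset.univ p)
    (hT2 : 2 ≤ T.card) {S : Finset T} (hS : S.Nonempty) {ε : ℂ} (hε : ε ^ 2 = 1)
    {s₀ s₁ : Multiset (Cover fun i : T => l i)} (h : IsLink (Cover fun i : T => l i) s₀ s₁) :
    (s₀.map (crv l S ε)).sum = (s₁.map (crv l S ε)).sum := by
  classical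
  obtain ⟨a', ha', b', hb', hab'⟩ := Finset.one_lt_card.1 (show 1 < T.card by omega)
  set a : T := ⟨a', ha'⟩ with ha
  set b : T := ⟨b', hb'⟩ with hb
  have hab : a ≠ b := fun h => hab' (congrArg Subtype.val h)
  have : Nonempty ι := ⟨a'⟩
  obtain ⟨e, f, h1, h2, h3, h4⟩ := exists_dual (hl a' b' hab')
  -- the choice of the section
  obtain ⟨r, hr⟩ : ∃ r : ℂ, ∀ c ∈ (s₀ + s₁).toFinset, ∀ i ∈ Finset.univ \ T,
      ev (l i) (pnt a b e f p r (c : ℙ ℂ (T → ℂ)).rep) ≠ 0 := by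
    have h5 : ∀ᶠ r : ℂ in Filter.cofinite, ∀ c ∈ (s₀ + s₁).toFinset, ∀ i ∈ Finset.univ \ T,
        ev (l i) (pnt a b e f p r (c : ℙ ℂ (T → ℂ)).rep) ≠ 0 := by
      rw [Filter.eventually_all_finset]
      intro c _
      rw [Filter.eventually_all_finset]
      intro i hi
      have hip : ev (l i) p ≠ 0 := by
        intro h0
        rw [Finset.mem_sdiff] at hi
        apply hi.2
        rw [hT]
        exact mem_thru.2 ⟨Finset.mem_univ i, h0⟩
      have hca : (c : ℙ ℂ (T → ℂ)).rep a ≠ 0 := c.2.1 a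
      have h6 : (Polynomial.C ((c : ℙ ℂ (T → ℂ)).rep a ^ 2 * ev (l i) e +
          (c : ℙ ℂ (T → ℂ)).rep b ^ 2 * ev (l i) f) +
          Polynomial.X * Polynomial.C ((c : ℙ ℂ (T → ℂ)).rep a ^ 2 * ev (l i) p)) ≠ 0 := by
        intro h0
        have h7 := congrArg (fun f => Polynomial.coeff f 1) h0
        simp only [Polynomial.coeff_add, Polynomial.coeff_C_succ, Polynomial.coeff_X_mul,
          Polynomial.coeff_C_zero, zero_add, Polynomial.coeff_zero] at h7
        exact mul_ne_zero (pow_ne_zero 2 hca) hip h7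
      filter_upwards [eventually_eval_ne h6] with r hr h0
      apply hr
      rw [ev_pnt] at h0
      simp only [Polynomial.eval_add, Polynomial.eval_mul, Polynomial.eval_C, Polynomial.eval_X]
      linear_combination h0
    exact h5.exists
  have hgood : ∀ c ∈ s₀ + s₁, ∀ u, IsRep u (c : ℙ ℂ (T → ℂ)) →
      eval u (psi T a b l e f p r) ≠ 0 := by
    intro c hc u hu
    rw [eval_psi]
    refine Finset.prod_ne_zero_iff.2 fun i hi => ?_
    have h5 := hr c (Multiset.mem_toFinset.2 hc) i hi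
    obtain ⟨hu0, hu1⟩ := hu
    obtain ⟨α, hα⟩ := Projectivization.exists_smul_eq_mk_rep ℂ u hu0
    rw [hu1, Units.smul_def] at hα
    rw [← hα] at h5
    intro h6
    apply h5
    rw [ev_pnt] at h6 ⊢
    simp only [Pi.smul_apply, smul_eq_mul]
    linear_combination (α : ℂ) ^ 2 * h6
  have hSne : up S ≠ ∅ := by
    have h5 : 0 < (up S).card := by
      rw [card_up]
      exact Finset.card_pos.2 hS
    exact (Finset.card_pos.1 h5).ne_empty
  have hpoint : ∀ (c : Cover fun i : T => l i) (u : T → ℂ), IsRep u (c : ℙ ℂ (T → ℂ)) →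
      eval u (psi T a b l e f p r) ≠ 0 →
      ∃ z : Cover l, Ov l (up S) z (pnt a b e f p r u) (ε * ∏ i ∈ S, u i) := by
    intro c u hu hψ
    have h5 : ∀ i : T, ev (l i) (pnt a b e f p r u) = u i ^ 2 :=
      ev_pnt_mem hl hp hT hab h1 h2 h3 h4 r hu
    obtain ⟨hune, -⟩ := rep_sq hu
    refine exists_ov (fun i => ?_) ?_ (fun h => absurd h hSne)
    · by_cases hi : i ∈ T
      · have h6 := h5 ⟨i, hi⟩
        change ev (l i) _ = _ at h6
        rw [h6]
        exact pow_ne_zero 2 (hune _)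
      · rw [eval_psi] at hψ
        exact Finset.prod_ne_zero_iff.1 hψ i
          (Finset.mem_sdiff.2 ⟨Finset.mem_univ i, hi⟩)
    · rw [mul_pow, hε, one_mul, up, Finset.prod_map, ← Finset.prod_pow]
      exact Finset.prod_congr rfl fun i _ => (h5 i).symm
  refine cl_transfer (phi l S a b e f p r ε) (psi T a b l e f p r) ?_ _ ?_ h
    (fun c hc u hu => hgood c (Multiset.mem_add.2 (Or.inl hc)) u hu)
    (fun c hc u hu => hgood c (Multiset.mem_add.2 (Or.inr hc)) u hu)
  · intro c u hu hψ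
    obtain ⟨z, hz⟩ := hpoint c u hu hψ
    exact ⟨orb l (up S) z, by rw [eval_phi]; exact hz.isChowForm⟩
  · intro c u hu hψ s' hs'
    obtain ⟨z, hz⟩ := hpoint c u hu hψ
    rw [eval_phi] at hs'
    rw [IsChowForm.cl_eq hs' hz.isChowForm]
    exact (crv_eq hS hu (ev_pnt_mem hl hp hT hab h1 h2 h3 h4 r hu) hz).symm

lemma sum_map_eq_lift {V : Set (ℙ ℂ (T → ℂ))} {A : Type} [AddCommGroup A] (g : V → A)
    (s : Multiset V) : (s.map g).sum = FreeAbelianGroup.lift g (cyc s) := by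
  rw [cyc, map_multiset_sum, Multiset.map_map]
  congr 1
  refine Multiset.map_congr rfl fun x _ => ?_
  simp

theorem lift_crv_eq_zero (hl : Distinct l) {p : Fin 3 → ℂ} (hp : p ≠ 0)
    (hT : T = thru l Finset.univ p) (hT2 : 2 ≤ T.card) {S : Finset T} (hS : S.Nonempty) {ε : ℂ}
    (hε : ε ^ 2 = 1) {z : Z0 (Cover fun i : T => l i)}
    (hz : z ∈ ratTriv (Cover fun i : T => l i)) :
    FreeAbelianGroup.lift (crv l S ε) z = 0 := by
  refine AddSubgroup.closure_induction (p := fun z _ => FreeAbelianGroup.lift (crv l S ε) z = 0)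
    ?_ ?_ ?_ ?_ hz
  · rintro z ⟨s₀, s₁, h, rfl⟩
    rw [map_sub, ← sum_map_eq_lift, ← sum_map_eq_lift, crv_link hl hp hT hT2 hS hε h, sub_self]
  · rw [map_zero]
  · intro x y _ _ hx hy
    rw [map_add, hx, hy, add_zero]
  · intro x _ hx
    rw [map_neg, hx, neg_zero]

/-- the isotypic part in terms of the curve -/
lemma iso_eq_crv (hT : T.Nonempty) {S : Finset T} (hS : S.Nonempty) (z : Cover l) :
    iso l (up S) z = crv l S 1 (forget l hT z) - crv l S (-1) (forget l hT z) := by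
  have : Nonempty ι := ⟨hT.choose⟩
  have hSne : (up S).Nonempty := by
    rw [← Finset.card_pos, card_up]
    exact Finset.card_pos.2 hS
  obtain ⟨hz0, x, hx⟩ := z.2
  have h0 : IsRep (z : ℙ ℂ (ι → ℂ)).rep (z : ℙ ℂ (ι → ℂ)) := ⟨z.1.rep_nonzero, z.1.mk_rep⟩
  set w := ∏ i ∈ up S, (z : ℙ ℂ (ι → ℂ)).rep i with hw
  have h1 : Ov l (up S) z x w := ⟨_, h0, hz0, hx, rfl⟩
  obtain ⟨z', hz'⟩ := exists_ov (l := l) (S := up S) (x := x) (w := -w)
    (fun i => h1.ev_ne_zero i) (by rw [neg_sq]; exact h1.sq_eq)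
    (fun h => absurd h hSne.ne_empty)
  have hrep := isRep_forget hT z
  rw [iso_eq_sub hSne h1 hz', crv_eq hS hrep (x := x) (fun i => (hx i).symm) (z := z)
    (by rw [one_mul, ← prod_up S (z : ℙ ℂ (ι → ℂ)).rep]; exact h1),
    crv_eq hS hrep (x := x) (fun i => (hx i).symm) (z := z')
    (by rw [neg_one_mul, ← prod_up S (z : ℙ ℂ (ι → ℂ)).rep]; exact hz')]

/-- **Cycles with trivial image on the curve.** -/
theorem lift_iso_eq_zero (hl : Distinct l) {p : Fin 3 → ℂ} (hp : p ≠ 0)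
    (hT : T = thru l Finset.univ p) (hTne : T.Nonempty) (hT2 : 2 ≤ T.card) {S : Finset T}
    (hS : S.Nonempty) {z : Z0 (Cover l)}
    (hz : FreeAbelianGroup.map (forget l hTne) z ∈ ratTriv (Cover fun i : T => l i)) :
    FreeAbelianGroup.lift (iso l (up S)) z = 0 := by
  have h1 : FreeAbelianGroup.lift (iso l (up S)) =
      (FreeAbelianGroup.lift (crv l S 1) - FreeAbelianGroup.lift (crv l S (-1))).comp
        (FreeAbelianGroup.map (forget l hTne)) := by
    apply FreeAbelianGroup.lift_ext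
    intro q
    rw [FreeAbelianGroup.lift_apply_of, AddMonoidHom.comp_apply, FreeAbelianGroup.map_of_apply,
      AddMonoidHom.sub_apply, FreeAbelianGroup.lift_apply_of, FreeAbelianGroup.lift_apply_of]
    exact iso_eq_crv hTne hS q
  rw [h1, AddMonoidHom.comp_apply, AddMonoidHom.sub_apply,
    lift_crv_eq_zero hl hp hT hT2 hS (by norm_num) hz,
    lift_crv_eq_zero hl hp hT hT2 hS (by norm_num) hz, sub_zero]

end Pool.Agent.Kummer2
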