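import Pool.Agent.Kummer2.Cycle

/-!
# Families of orbit cycles
-/

set_option autoImplicit false
set_option linter.unusedSectionVars false

open scoped LinearAlgebra.Projectivization
open Polynomial

namespace Pool.Agent.Kummer2

open Pool.Agent.Chow0

variable {ι : Type} [Fintype ι] [DecidableEq ι] {l : ι → Fin 3 → ℂ}

/-- the evaluation as a ring homomorphism -/
noncomputable def ev2Hom (t u : ℂ) : (MvPolynomial ι ℂ)[X][X] →+* MvPolynomial ι ℂ :=
  (evalRingHom (MvPolynomial.C u)).comp (mapRingHom (evalRingHom (MvPolynomial.C t)))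

lemma ev2_eq (t u : ℂ) (G : (MvPolynomial ι ℂ)[X][X]) : ev2 t u G = ev2Hom t u G := rfl

lemma ev2Hom_map (t u : ℂ) (q : ℂ[X][X]) :
    ev2Hom (ι := ι) t u (q.map cmap) = MvPolynomial.C ((spec t q).eval u) := by
  have hcomp : (evalRingHom (MvPolynomial.C t)).comp (cmap (ι := ι)) =
      (MvPolynomial.C : ℂ →+* MvPolynomial ι ℂ).comp (evalRingHom t) := by
    ext q
    · simp [cmap]
    · simp [cmap]
  rw [ev2Hom, RingHom.comp_apply, coe_mapRingHom, Polynomial.map_map, hcomp, ← Polynomial.map_map,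
    coe_evalRingHom, eval_map, eval₂_at_apply]
  rfl

/-- the polynomial form of the Chow forms of a family of orbits -/
noncomputable def polyFrm (S : Finset ι) (q : ι → ℂ[X][X]) (w : ℂ[X][X]) :
    (MvPolynomial ι ℂ)[X][X] :=
  MvPolynomial.eval₂ ((C : (MvPolynomial ι ℂ)[X] →+* _).comp C) (fun i => (q i).map cmap)
      (exists_forms S).choose +
    w.map cmap * MvPolynomial.eval₂ ((C : (MvPolynomial ι ℂ)[X] →+* _).comp C)
      (fun i => (q i).map cmap) (exists_forms S).choose_spec.choose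

lemma ev2Hom_eval₂ (t u : ℂ) (q : ι → ℂ[X][X]) (P : MvPolynomial ι (MvPolynomial ι ℂ)) :
    ev2Hom t u (MvPolynomial.eval₂ ((C : (MvPolynomial ι ℂ)[X] →+* _).comp C)
      (fun i => (q i).map cmap) P) =
      MvPolynomial.eval (fun i => (MvPolynomial.C ((spec t (q i)).eval u) : MvPolynomial ι ℂ))
        P := by
  have h0 := MvPolynomial.hom_eval₂ P ((C : (MvPolynomial ι ℂ)[X] →+* _).comp C)
    (ev2Hom (ι := ι) t u) (fun i => (q i).map cmap)
  have h1 : (ev2Hom (ι := ι) t u).comp ((C : (MvPolynomial ι ℂ)[X] →+* _).comp C) =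
      RingHom.id _ := by
    apply RingHom.ext
    intro r
    simp [ev2Hom]
  rw [h1] at h0
  simp only [ev2Hom_map] at h0
  exact h0

lemma ev2_polyFrm (S : Finset ι) (t u : ℂ) (q : ι → ℂ[X][X]) (w : ℂ[X][X]) :
    ev2 t u (polyFrm S q w) = frm S (fun i => (spec t (q i)).eval u) ((spec t w).eval u) := by
  rw [ev2_eq, polyFrm, map_add, map_mul, ev2Hom_eval₂, ev2Hom_eval₂, ev2Hom_map, frm]

lemma cl_sum {S : Set (ℙ ℂ (ι → ℂ))} (σ : Multiset (Multiset S)) : cl σ.sum = (σ.map cl).sum := by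
  induction σ using Multiset.induction_on with
  | empty => simp [cl]
  | cons s σ ih => rw [Multiset.sum_cons, cl_add, ih, Multiset.map_cons, Multiset.sum_cons]

/-- **Families of orbits.** -/
theorem orb_family [Nonempty ι] {S : Finset ι} {d : ℕ} {Q : ℂ[X][X]}
    {q : ι → ℂ[X][X]} {w : ℂ[X][X]} (hSne : S = ∅ → ∀ t u : ℂ, (spec t w).eval u = 1)
    (hQ : Q.natDegree ≤ d)
    (hx : ∀ t u : ℂ, ∃ x : Fin 3 → ℂ, ∀ i, (spec t (q i)).eval u = ev (l i) x)
    (hw : ∀ t u : ℂ, (spec t Q).eval u = 0 →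
      ((spec t w).eval u) ^ 2 = ∏ i ∈ S, (spec t (q i)).eval u)
    (hgood : ∀ᶠ t : ℂ in Filter.cofinite, ∀ u ∈ (spec t Q).roots, ∀ i,
      (spec t (q i)).eval u ≠ 0)
    (h0 : (Q.coeff d).eval 0 ≠ 0) (h1 : (Q.coeff d).eval 1 ≠ 0) {z₀ z₁ : ℂ → Cover l}
    {x₀ x₁ : ℂ → Fin 3 → ℂ}
    (hx₀ : ∀ u ∈ (spec 0 Q).roots, ∀ i, (spec 0 (q i)).eval u = ev (l i) (x₀ u))
    (hx₁ : ∀ u ∈ (spec 1 Q).roots, ∀ i, (spec 1 (q i)).eval u = ev (l i) (x₁ u))
    (hz₀ : ∀ u ∈ (spec 0 Q).roots, Ov l S (z₀ u) (x₀ u) ((spec 0 w).eval u))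
    (hz₁ : ∀ u ∈ (spec 1 Q).roots, Ov l S (z₁ u) (x₁ u) ((spec 1 w).eval u)) :
    ((spec 0 Q).roots.map fun u => cl (orb l S (z₀ u))).sum =
      ((spec 1 Q).roots.map fun u => cl (orb l S (z₁ u))).sum := by
  have hrel : ∀ (t : ℂ) (z : ℂ → Cover l) (x : ℂ → Fin 3 → ℂ),
      (∀ u ∈ (spec t Q).roots, ∀ i, (spec t (q i)).eval u = ev (l i) (x u)) →
      (∀ u ∈ (spec t Q).roots, Ov l S (z u) (x u) ((spec t w).eval u)) →
      Multiset.Rel (fun u s => IsChowForm (Cover l) (ev2 t u (polyFrm S q w)) s)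
        (spec t Q).roots ((spec t Q).roots.map fun u => orb l S (z u)) := by
    intro t z x hx hz
    rw [Multiset.rel_map_right]
    refine Multiset.rel_refl_of_refl_on fun u hu => ?_
    rw [ev2_polyFrm]
    have h2 := (hz u hu).isChowForm
    have h3 : (fun i => (spec t (q i)).eval u) = fun i => ev (l i) (x u) :=
      funext fun i => hx u hu i
    rw [h3]
    exact h2
  have key := cl_eq_of_family (G := polyFrm S q w) hQ ?_ h0 h1 (hrel 0 z₀ x₀ hx₀ hz₀)
    (hrel 1 z₁ x₁ hx₁ hz₁)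
  · rw [cl_sum, cl_sum, Multiset.map_map, Multiset.map_map] at key
    exact key
  · filter_upwards [hgood] with t ht u hu
    obtain ⟨x, hxx⟩ := hx t u
    have h2 := hw t u ((mem_roots'.1 hu).2)
    have h3 : ∏ i ∈ S, (spec t (q i)).eval u = ∏ i ∈ S, ev (l i) x :=
      Finset.prod_congr rfl fun i _ => hxx i
    rw [h3] at h2
    obtain ⟨z, hz⟩ := exists_ov (l := l) (fun i => by rw [← hxx]; exact ht u hu i) h2
      (fun h => hSne h t u)
    refine ⟨orb l S z, ?_⟩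
    rw [ev2_polyFrm]
    have h4 := hz.isChowForm
    have h5 : (fun i => (spec t (q i)).eval u) = fun i => ev (l i) x := funext hxx
    rw [h5]
    exact h4

/-- **Rational curves of orbits.** -/
theorem orb_curve [Nonempty ι] {S : Finset ι} {q : ι → ℂ[X]} {w : ℂ[X]}
    (hS : S = ∅ → ∀ t : ℂ, w.eval t = 1)
    (hx : ∀ t : ℂ, ∃ x : Fin 3 → ℂ, ∀ i, (q i).eval t = ev (l i) x)
    (hw : w ^ 2 = ∏ i ∈ S, q i) {z₀ z₁ : Cover l} {x₀ x₁ : Fin 3 → ℂ}
    (hx₀ : ∀ i, (q i).eval 0 = ev (l i) x₀) (hx₁ : ∀ i, (q i).eval 1 = ev (l i) x₁)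
    (hz₀ : Ov l S z₀ x₀ (w.eval 0)) (hz₁ : Ov l S z₁ x₁ (w.eval 1)) :
    cl (orb l S z₀) = cl (orb l S z₁) := by
  have hspec : ∀ (t u : ℂ) (f : ℂ[X]), (spec t (C f)).eval u = f.eval t := by
    intro t u f
    simp [spec]
  have hX : ∀ t : ℂ, (spec t (X : ℂ[X][X])).roots = {0} := by
    intro t
    simp [spec]
  have key := orb_family (l := l) (S := S) (d := 1) (Q := X) (q := fun i => C (q i)) (w := C w)
    (z₀ := fun _ => z₀) (z₁ := fun _ => z₁) (x₀ := fun _ => x₀) (x₁ := fun _ => x₁)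
    (fun h t u => by rw [hspec]; exact hS h t) natDegree_X_le
    (fun t u => by
      obtain ⟨x, hxx⟩ := hx t
      exact ⟨x, fun i => by rw [hspec]; exact hxx i⟩)
    (fun t u _ => by
      rw [hspec, ← eval_pow, hw, eval_prod]
      exact Finset.prod_congr rfl fun i _ => (hspec t u (q i)).symm) ?_ (by simp) (by simp)
    (fun u _ i => by rw [hspec]; exact hx₀ i) (fun u _ i => by rw [hspec]; exact hx₁ i)
    (fun u _ => by rw [hspec]; exact hz₀) (fun u _ => by rw [hspec]; exact hz₁)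
  · rw [hX, hX] at key
    simpa using key
  · have h1 : ∀ i, ∀ᶠ t : ℂ in Filter.cofinite, (q i).eval t ≠ 0 := by
      intro i
      have hne : q i ≠ 0 := by
        intro h
        apply hz₀.ev_ne_zero i
        rw [← hx₀, h, eval_zero]
      rw [Filter.eventually_cofinite]
      refine (q i).roots.toFinset.finite_toSet.subset ?_
      intro t ht
      rw [Finset.mem_coe, Multiset.mem_toFinset, mem_roots hne]
      exact not_not.1 ht
    filter_upwards [Filter.eventually_all.2 h1] with t ht u _ i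
    rw [hspec]
    exact ht i

end Pool.Agent.Kummer2
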