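import Pool.Agent.Kummer2.Forms
import Pool.Agent.Kummer2.Family

/-!
# Orbit cycles and their Chow forms
-/

set_option autoImplicit false
set_option linter.unusedSectionVars false

open scoped LinearAlgebra.Projectivization
open Polynomial

namespace Pool.Agent.Kummer2

open Pool.Agent.Chow0

variable {ι : Type} [Fintype ι] [DecidableEq ι] {l : ι → Fin 3 → ℂ}

lemma ev_smul' (a x : Fin 3 → ℂ) (c : ℂ) : ev a (fun j => c * x j) = c * ev a x := by
  simp only [ev, Fin.sum_univ_three]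
  ring

omit [DecidableEq ι] in
/-- criterion for a vector to give a point of the covering -/
lemma mem_cover {v : ι → ℂ} {p : ℙ ℂ (ι → ℂ)} (h : IsRep v p) (hv : ∀ i, v i ≠ 0)
    {x : Fin 3 → ℂ} (hx : ∀ i, v i ^ 2 = ev (l i) x) : p ∈ Cover l := by
  obtain ⟨hv0, rfl⟩ := h
  obtain ⟨a, ha⟩ := Projectivization.exists_smul_eq_mk_rep ℂ v hv0
  constructor
  · intro i
    rw [← ha, Pi.smul_apply, Units.smul_def, smul_eq_mul]
    exact mul_ne_zero a.ne_zero (hv i)
  · refine ⟨fun j => (a : ℂ) ^ 2 * x j, fun i => ?_⟩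
    rw [← ha, Pi.smul_apply, Units.smul_def, smul_eq_mul, ev_smul', ← hx, mul_pow]

omit [Fintype ι] [DecidableEq ι] in
lemma sg_ne_zero {g : ι → ℤˣ} {v : ι → ℂ} (hv : ∀ i, v i ≠ 0) (i : ι) : sg g v i ≠ 0 := by
  rw [sg]
  refine mul_ne_zero ?_ (hv i)
  intro h
  have := unit_sq (g i)
  rw [h] at this
  norm_num at this

omit [Fintype ι] [DecidableEq ι] in
lemma ne_zero_of_forall [Nonempty ι] {v : ι → ℂ} (hv : ∀ i, v i ≠ 0) : v ≠ 0 := by
  intro h
  obtain ⟨i⟩ := (inferInstance : Nonempty ι)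
  exact hv i (congrFun h i)

omit [DecidableEq ι] in
lemma nonempty_of_point (p : ℙ ℂ (ι → ℂ)) : Nonempty ι := by
  by_contra h
  rw [not_nonempty_iff] at h
  apply p.rep_nonzero
  funext i
  exact h.elim i

lemma sgRep_ne_zero (g : ι → ℤˣ) (p : Cover l) : sg g (p : ℙ ℂ (ι → ℂ)).rep ≠ 0 := by
  have := nonempty_of_point (p : ℙ ℂ (ι → ℂ))
  exact ne_zero_of_forall (sg_ne_zero p.2.1)

/-- The action of the group of sign changes on the covering. -/
noncomputable def act (l : ι → Fin 3 → ℂ) (g : ι → ℤˣ) (p : Cover l) : Cover l :=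
  ⟨Projectivization.mk ℂ (sg g (p : ℙ ℂ (ι → ℂ)).rep) (sgRep_ne_zero g p), by
    obtain ⟨x, hx⟩ := p.2.2
    exact mem_cover ⟨sgRep_ne_zero g p, rfl⟩ (sg_ne_zero p.2.1)
      (x := x) (fun i => by rw [sg_sq]; exact hx i)⟩

lemma isRep_sg {g : ι → ℤˣ} {v : ι → ℂ} {p : Cover l} (h : IsRep v (p : ℙ ℂ (ι → ℂ))) :
    IsRep (sg g v) (act l g p : ℙ ℂ (ι → ℂ)) := by
  obtain ⟨hv0, hv⟩ := h
  obtain ⟨a, ha⟩ := Projectivization.exists_smul_eq_mk_rep ℂ v hv0
  rw [hv, Units.smul_def] at ha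
  have h1 : sg g (p : ℙ ℂ (ι → ℂ)).rep = (a : ℂ) • sg g v := by
    rw [← ha]
    funext i
    simp only [sg, Pi.smul_apply, smul_eq_mul]
    ring
  have h2 : sg g v ≠ 0 := by
    intro h
    apply sgRep_ne_zero g p
    rw [h1, h, smul_zero]
  refine ⟨h2, ?_⟩
  change Projectivization.mk ℂ _ _ = Projectivization.mk ℂ _ _
  rw [Projectivization.mk_eq_mk_iff']
  exact ⟨(a : ℂ)⁻¹, by rw [h1, smul_smul, inv_mul_cancel₀ a.ne_zero, one_smul]⟩

/-- the orbit of a point under the kernel of a character -/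
noncomputable def orb (l : ι → Fin 3 → ℂ) (S : Finset ι) (z : Cover l) : Multiset (Cover l) :=
  (kr S).val.map fun g => act l g z

/-- the point `z` of the covering lies over the point `(x, w)` of the double plane -/
def Ov (l : ι → Fin 3 → ℂ) (S : Finset ι) (z : Cover l) (x : Fin 3 → ℂ) (w : ℂ) : Prop :=
  ∃ v : ι → ℂ, IsRep v (z : ℙ ℂ (ι → ℂ)) ∧ (∀ i, v i ≠ 0) ∧ (∀ i, v i ^ 2 = ev (l i) x) ∧
    ∏ i ∈ S, v i = w

lemma Ov.ev_ne_zero {S : Finset ι} {z : Cover l} {x : Fin 3 → ℂ} {w : ℂ} (h : Ov l S z x w)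
    (i : ι) : ev (l i) x ≠ 0 := by
  obtain ⟨v, _, hv, hx, _⟩ := h
  rw [← hx]
  exact pow_ne_zero 2 (hv i)

lemma Ov.sq_eq {S : Finset ι} {z : Cover l} {x : Fin 3 → ℂ} {w : ℂ} (h : Ov l S z x w) :
    w ^ 2 = ∏ i ∈ S, ev (l i) x := by
  obtain ⟨v, _, hv, hx, hw⟩ := h
  rw [← hw, ← Finset.prod_pow]
  exact Finset.prod_congr rfl fun i _ => hx i

lemma exists_sg {v v' : ι → ℂ} (h : ∀ i, v' i ^ 2 = v i ^ 2) : ∃ g : ι → ℤˣ, v' = sg g v := by
  have h1 : ∀ i, ∃ u : ℤˣ, v' i = ((u : ℤ) : ℂ) * v i := by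
    intro i
    rcases sq_eq_sq_iff_eq_or_eq_neg.1 (h i) with h | h
    · exact ⟨1, by rw [h]; simp⟩
    · exact ⟨-1, by rw [h]; simp⟩
  choose g hg using h1
  exact ⟨g, funext hg⟩

lemma IsRep.unique' {v : ι → ℂ} {p q : Cover l} (h : IsRep v (p : ℙ ℂ (ι → ℂ)))
    (h' : IsRep v (q : ℙ ℂ (ι → ℂ))) : p = q := by
  apply Subtype.ext
  obtain ⟨hv, hp⟩ := h
  obtain ⟨_, hq⟩ := h'
  rw [← hp, ← hq]

lemma act_act (g h : ι → ℤˣ) (p : Cover l) : act l g (act l h p) = act l (g * h) p := by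
  have h0 : IsRep (p : ℙ ℂ (ι → ℂ)).rep (p : ℙ ℂ (ι → ℂ)) := ⟨p.1.rep_nonzero, p.1.mk_rep⟩
  have h1 : IsRep (sg g (sg h (p : ℙ ℂ (ι → ℂ)).rep)) (act l g (act l h p) : ℙ ℂ (ι → ℂ)) :=
    isRep_sg (isRep_sg h0)
  have h2 : IsRep (sg (g * h) (p : ℙ ℂ (ι → ℂ)).rep) (act l (g * h) p : ℙ ℂ (ι → ℂ)) :=
    isRep_sg h0
  rw [sg_mul] at h2
  exact IsRep.unique' h1 h2

lemma orb_act {S : Finset ι} {g : ι → ℤˣ} (hg : g ∈ kr S) (z : Cover l) :
    orb l S (act l g z) = orb l S z := by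
  rw [orb, orb]
  simp only [act_act]
  have h1 : (kr S).val.map (fun h => act l (h * g) z) =
      ((kr S).val.map (fun h => h * g)).map fun h => act l h z := by
    rw [Multiset.map_map]
    rfl
  have h2 : (kr S).val.map (fun h => h * g) = (kr S).val := by
    have h3 : (kr S).map ⟨fun h => h * g, mul_left_injective g⟩ = kr S := by
      ext h
      rw [Finset.mem_map]
      constructor
      · rintro ⟨a, ha, rfl⟩
        rw [mem_kr] at ha hg ⊢
        change chi S (a * g) = 1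
        rw [chi_mul, ha, hg, one_mul]
      · intro hh
        refine ⟨h * g⁻¹, ?_, ?_⟩
        · rw [mem_kr] at hh hg ⊢
          have := chi_mul S (h * g⁻¹) g
          rw [inv_mul_cancel_right, hh, hg, mul_one] at this
          exact this.symm
        · change h * g⁻¹ * g = h
          rw [inv_mul_cancel_right]
    have h4 := congrArg Finset.val h3
    rw [Finset.map_val] at h4
    exact h4
  rw [h1, h2]

/-- the orbit depends only on the point of the double plane -/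
lemma orb_eq {S : Finset ι} {z z' : Cover l} {x : Fin 3 → ℂ} {w : ℂ} (h : Ov l S z x w)
    (h' : Ov l S z' x w) : orb l S z = orb l S z' := by
  obtain ⟨v, hz, hv, hx, hw⟩ := h
  obtain ⟨v', hz', hv', hx', hw'⟩ := h'
  obtain ⟨g, hg⟩ := exists_sg (v := v) (v' := v') fun i => by rw [hx, hx']
  have h1 : g ∈ kr S := by
    rw [mem_kr]
    rw [hg, prod_sg, hw] at hw'
    have hw0 : w ≠ 0 := by
      rw [← hw]
      exact Finset.prod_ne_zero_iff.2 fun i _ => hv i
    rcases Int.units_eq_one_or (chi S g) with h2 | h2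
    · exact h2
    · rw [h2] at hw'
      exfalso
      apply hw0
      push_cast at hw'
      linear_combination (-1 / 2 : ℂ) * hw'
  have h2 : z' = act l g z := by
    rw [hg] at hz'
    exact IsRep.unique' hz' (isRep_sg hz)
  rw [h2, orb_act h1]

/-- existence of points over a point of the double plane -/
lemma exists_ov [Nonempty ι] {S : Finset ι} {x : Fin 3 → ℂ} {w : ℂ}
    (hx : ∀ i, ev (l i) x ≠ 0) (hw : w ^ 2 = ∏ i ∈ S, ev (l i) x) (hS : S = ∅ → w = 1) :
    ∃ z : Cover l, Ov l S z x w := by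
  have h1 : ∀ i, ∃ a : ℂ, a ^ 2 = ev (l i) x := fun i =>
    IsAlgClosed.exists_pow_nat_eq _ (by norm_num)
  choose v hv using h1
  have hv0 : ∀ i, v i ≠ 0 := by
    intro i h
    apply hx i
    rw [← hv, h]
    simp
  have h2 : (∏ i ∈ S, v i) ^ 2 = w ^ 2 := by
    rw [hw, ← Finset.prod_pow]
    exact Finset.prod_congr rfl fun i _ => hv i
  obtain ⟨g, hg⟩ : ∃ g : ι → ℤˣ, ∏ i ∈ S, sg g v i = w := by
    rcases sq_eq_sq_iff_eq_or_eq_neg.1 h2 with h3 | h3
    · exact ⟨1, by rw [prod_sg, chi_one]; simpa using h3⟩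
    · rcases S.eq_empty_or_nonempty with h4 | ⟨i, hi⟩
      · rw [h4, Finset.prod_empty, hS h4] at h3
        norm_num at h3
      · refine ⟨Function.update 1 i (-1), ?_⟩
        rw [prod_sg]
        have h5 : chi S (Function.update (1 : ι → ℤˣ) i (-1)) = -1 := by
          rw [chi, ← Finset.mul_prod_erase S _ hi, Function.update_self, Finset.prod_eq_one,
            mul_one]
          intro j hj
          rw [Function.update_of_ne (Finset.ne_of_mem_erase hj)]
          rfl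
        rw [h5, h3]
        simp
  have h3 := ne_zero_of_forall (sg_ne_zero (g := g) hv0)
  refine ⟨⟨Projectivization.mk ℂ (sg g v) h3, mem_cover ⟨h3, rfl⟩ (sg_ne_zero hv0) (x := x)
    fun i => by rw [sg_sq, hv]⟩, sg g v, ⟨h3, rfl⟩, sg_ne_zero hv0, fun i => by rw [sg_sq, hv], hg⟩

/-- the polynomial form of the Chow form of an orbit -/
noncomputable def frm (S : Finset ι) (x : ι → ℂ) (w : ℂ) : MvPolynomial ι ℂ :=
  MvPolynomial.eval (fun i => (MvPolynomial.C (x i) : MvPolynomial ι ℂ)) (exists_forms S).choose +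
    MvPolynomial.C w * MvPolynomial.eval (fun i => (MvPolynomial.C (x i) : MvPolynomial ι ℂ))
      (exists_forms S).choose_spec.choose

lemma normForm_eq (S : Finset ι) (v : ι → ℂ) :
    normForm S v = frm S (fun i => v i ^ 2) (∏ i ∈ S, v i) :=
  (exists_forms S).choose_spec.choose_spec v

lemma Ov.isChowForm {S : Finset ι} {z : Cover l} {x : Fin 3 → ℂ} {w : ℂ} (h : Ov l S z x w) :
    IsChowForm (Cover l) (frm S (fun i => ev (l i) x) w) (orb l S z) := by
  obtain ⟨v, hz, hv, hx, hw⟩ := h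
  have h1 : frm S (fun i => ev (l i) x) w = normForm S v := by
    rw [normForm_eq, hw]
    congr 1
    funext i
    rw [hx]
  rw [h1]
  have hr : Multiset.Rel (fun (g : ι → ℤˣ) (p : Cover l) => IsRep (sg g v) (p : ℙ ℂ (ι → ℂ)))
      (kr S).val (orb l S z) := by
    rw [orb, Multiset.rel_map_right]
    refine Multiset.rel_refl_of_refl_on fun g _ => ?_
    exact isRep_sg hz
  exact rel_prod hr

end Pool.Agent.Kummer2
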