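import Pool.Agent.Chow0.Pencil

/-!
# Coverings of the plane of exponent two, branched along lines
-/

set_option autoImplicit false

open scoped LinearAlgebra.Projectivization

namespace Pool.Agent.Kummer2

open Pool.Agent.Chow0

variable {ι : Type} [Fintype ι] [DecidableEq ι]

/-- The value at the vector `x` of the linear form with coefficients `a`. -/
def ev (a x : Fin 3 → ℂ) : ℂ := ∑ j, a j * x j

/-- The lines with equations `l i` are distinct. -/
def Distinct (l : ι → Fin 3 → ℂ) : Prop := ∀ i j, i ≠ j → LinearIndependent ℂ ![l i, l j]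

/-- The points with coordinates `z i ≠ 0` such that `z i ^ 2 = l i (x)` for all `i`, for some vector
`x`. If the lines are not concurrent, this is the open subset, lying over the complement of the
lines, of the covering of the plane with function field `ℂ(ℙ²)(√(l i / l j))`; if at least two
lines are given and all of them are concurrent, it is an open subset of a curve. -/
def Cover (l : ι → Fin 3 → ℂ) : Set (ℙ ℂ (ι → ℂ)) :=
  {p | (∀ i, p.rep i ≠ 0) ∧ ∃ x : Fin 3 → ℂ, ∀ i, p.rep i ^ 2 = ev (l i) x}

/-- The number of the lines with index in `S` which pass through the point `x`. -/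
noncomputable def mult (l : ι → Fin 3 → ℂ) (S : Finset ι) (x : Fin 3 → ℂ) : ℕ :=
  by classical exact (S.filter fun i => ev (l i) x = 0).card

/-- The form `P` vanishes to order at least `k` at the point `x`: for each vector `y`, the
polynomial `P (x + T y)` in `T` is divisible by `T ^ k`. -/
def VanishesTo (P : MvPolynomial (Fin 3) ℂ) (x : Fin 3 → ℂ) (k : ℕ) : Prop :=
  ∀ y : Fin 3 → ℂ, (Polynomial.X : Polynomial ℂ) ^ k ∣
    MvPolynomial.aeval (fun j => Polynomial.C (x j) + Polynomial.X * Polynomial.C (y j)) P

/-- The form `P` is an adjoint form of the double plane `w ^ 2 = ∏ l i`, `i ∈ S`, where `S` has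
`2 s ≥ 6` elements: it has degree `s - 3` and vanishes to order at least `⌊m / 2⌋ - 1` at each point
through which `m` of the lines pass. The holomorphic two-forms of a smooth model of the double plane
are the forms `P Ω / w` with `P` adjoint, where `Ω = x₀ dx₁ dx₂ - x₁ dx₀ dx₂ + x₂ dx₀ dx₁`. -/
def IsAdjoint (l : ι → Fin 3 → ℂ) (S : Finset ι) (P : MvPolynomial (Fin 3) ℂ) : Prop :=
  P.IsHomogeneous (S.card / 2 - 3) ∧
    ∀ x : Fin 3 → ℂ, x ≠ 0 → VanishesTo P x (mult l S x / 2 - 1)

end Pool.Agent.Kummer2
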