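import Pool.Agent.Kummer2.Adjoint

/-!
# Double planes branched along lines: existence of two-forms
-/

set_option autoImplicit false

namespace Pool.Agent.Kummer2

variable {ι : Type} [Fintype ι] [DecidableEq ι]

/-- the intersection point of two lines -/
def vtx (a b : Fin 3 → ℂ) : Fin 3 → ℂ :=
  ![a 1 * b 2 - a 2 * b 1, a 2 * b 0 - a 0 * b 2, a 0 * b 1 - a 1 * b 0]

lemma ev_vtx_left (a b : Fin 3 → ℂ) : ev a (vtx a b) = 0 := by
  simp [ev, vtx, Fin.sum_univ_three]
  ring

lemma ev_vtx_right (a b : Fin 3 → ℂ) : ev b (vtx a b) = 0 := by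
  simp [ev, vtx, Fin.sum_univ_three]
  ring

lemma ev_smul (a x : Fin 3 → ℂ) (c : ℂ) : ev a (fun j => c * x j) = c * ev a x := by
  simp only [ev, Fin.sum_univ_three]
  ring

lemma ev_add (a x y : Fin 3 → ℂ) : ev a (fun j => x j + y j) = ev a x + ev a y := by
  simp only [ev, Fin.sum_univ_three]
  ring

lemma exists_smul_of_cross {n x : Fin 3 → ℂ} (hn : n ≠ 0) (hx : x ≠ 0)
    (h : ∀ i j, n i * x j = n j * x i) : ∃ c : ℂ, c ≠ 0 ∧ x = fun j => c * n j := by
  obtain ⟨i, hi⟩ := Function.ne_iff.1 hn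
  rw [Pi.zero_apply] at hi
  have h1 : x = fun j => x i / n i * n j := by
    funext j
    have := h i j
    field_simp
    linear_combination this
  refine ⟨x i / n i, ?_, h1⟩
  intro h0
  apply hx
  rw [h1, h0]
  funext j
  simp

lemma vtx_ne_zero {a b : Fin 3 → ℂ} (hab : LinearIndependent ℂ ![a, b]) : vtx a b ≠ 0 := by
  intro h
  have h0 := congrFun h 0
  have h1 := congrFun h 1
  have h2 := congrFun h 2
  simp only [vtx, Matrix.cons_val_zero, Matrix.cons_val_one, Matrix.cons_val, Pi.zero_apply]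
    at h0 h1 h2
  have ha : a ≠ 0 := hab.ne_zero 0
  have hb : b ≠ 0 := hab.ne_zero 1
  obtain ⟨c, _, hc⟩ := exists_smul_of_cross ha hb (by
    intro i j
    fin_cases i <;> fin_cases j <;> simp <;>
      first
        | ring1
        | linear_combination h0
        | linear_combination -h0
        | linear_combination h1
        | linear_combination -h1
        | linear_combination h2
        | linear_combination -h2)
  rw [LinearIndependent.pair_iff] at hab
  have h3 := hab c (-1) (by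
    funext j
    rw [hc]
    simp)
  exact absurd h3.2 (by norm_num)

/-- the common zeros of two independent linear forms are proportional -/
lemma exists_smul_of_zero {a b x x' : Fin 3 → ℂ} (hab : LinearIndependent ℂ ![a, b])
    (hx : x ≠ 0) (hx' : x' ≠ 0) (h1 : ev a x = 0) (h2 : ev b x = 0) (h3 : ev a x' = 0)
    (h4 : ev b x' = 0) : ∃ c : ℂ, c ≠ 0 ∧ x' = fun j => c * x j := by
  have key : ∀ x : Fin 3 → ℂ, x ≠ 0 → ev a x = 0 → ev b x = 0 →
      ∃ c : ℂ, c ≠ 0 ∧ x = fun j => c * vtx a b j := by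
    intro x hx h1 h2
    refine exists_smul_of_cross (vtx_ne_zero hab) hx ?_
    simp only [ev, Fin.sum_univ_three] at h1 h2
    intro i j
    fin_cases i <;> fin_cases j <;> simp [vtx] <;>
      first
        | ring1
        | linear_combination a 0 * h2 - b 0 * h1
        | linear_combination -(a 0 * h2 - b 0 * h1)
        | linear_combination a 1 * h2 - b 1 * h1
        | linear_combination -(a 1 * h2 - b 1 * h1)
        | linear_combination a 2 * h2 - b 2 * h1
        | linear_combination -(a 2 * h2 - b 2 * h1)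
  obtain ⟨c, hc, hcx⟩ := key x hx h1 h2
  obtain ⟨c', hc', hcx'⟩ := key x' hx' h3 h4
  refine ⟨c' / c, div_ne_zero hc' hc, ?_⟩
  rw [hcx, hcx']
  funext j
  field_simp

open scoped Classical in
/-- the set of lines through a point -/
noncomputable def thru (l : ι → Fin 3 → ℂ) (S : Finset ι) (x : Fin 3 → ℂ) : Finset ι :=
  S.filter fun i => ev (l i) x = 0

omit [Fintype ι] [DecidableEq ι] in
lemma mem_thru {l : ι → Fin 3 → ℂ} {S : Finset ι} {x : Fin 3 → ℂ} {i : ι} :
    i ∈ thru l S x ↔ i ∈ S ∧ ev (l i) x = 0 := by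
  rw [thru, Finset.mem_filter]

omit [Fintype ι] [DecidableEq ι] in
lemma mult_eq (l : ι → Fin 3 → ℂ) (S : Finset ι) (x : Fin 3 → ℂ) :
    mult l S x = (thru l S x).card := rfl

lemma thru_smul {l : ι → Fin 3 → ℂ} {S : Finset ι} {x : Fin 3 → ℂ} {c : ℂ} (hc : c ≠ 0) :
    thru l S (fun j => c * x j) = thru l S x := by
  ext i
  rw [mem_thru, mem_thru, ev_smul, mul_eq_zero, or_iff_right hc]

/-- two points on two common lines have the same lines through them -/
lemma thru_eq {l : ι → Fin 3 → ℂ} (hl : Distinct l) {S : Finset ι} {x x' : Fin 3 → ℂ}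
    (hx : x ≠ 0) (hx' : x' ≠ 0) {i j : ι} (hij : i ≠ j) (hi : i ∈ thru l S x)
    (hj : j ∈ thru l S x) (hi' : i ∈ thru l S x') (hj' : j ∈ thru l S x') :
    ∃ c : ℂ, c ≠ 0 ∧ x' = fun j => c * x j :=
  exists_smul_of_zero (hl i j hij) hx hx' (mem_thru.1 hi).2 (mem_thru.1 hj).2 (mem_thru.1 hi').2
    (mem_thru.1 hj').2

/-- **Existence of adjoint forms.** If `2 s ≥ 6` distinct lines are given, at most `2 s - 3` of
which are concurrent, then the double plane branched along them has a nonzero two-form. -/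
theorem exists_adjoint {l : ι → Fin 3 → ℂ} (hl : Distinct l) {S : Finset ι} {s : ℕ}
    (hs : 3 ≤ s) (hS : S.card = 2 * s) (hm : ∀ x : Fin 3 → ℂ, x ≠ 0 → mult l S x + 3 ≤ 2 * s) :
    ∃ P : MvPolynomial (Fin 3) ℂ, P ≠ 0 ∧ IsAdjoint l S P := by
  classical
  -- the blocks
  set B : Finset (Finset ι) := S.offDiag.image fun p => thru l S (vtx (l p.1) (l p.2)) with hB
  have hBx : ∀ b : Finset ι, ∃ x : Fin 3 → ℂ, x ≠ 0 ∧ (b ∈ B → b = thru l S x ∧
      ∃ i j, i ≠ j ∧ i ∈ b ∧ j ∈ b) := by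
    intro b
    by_cases hb : b ∈ B
    · have hb' := hb
      rw [hB, Finset.mem_image] at hb'
      obtain ⟨⟨i, j⟩, hij, rfl⟩ := hb'
      rw [Finset.mem_offDiag] at hij
      refine ⟨vtx (l i) (l j), vtx_ne_zero (hl i j hij.2.2), fun _ => ⟨rfl, i, j, hij.2.2, ?_, ?_⟩⟩
      · exact mem_thru.2 ⟨hij.1, ev_vtx_left _ _⟩
      · exact mem_thru.2 ⟨hij.2.1, ev_vtx_right _ _⟩
    · exact ⟨fun _ => 1, fun h => one_ne_zero (congrFun h 0), fun h => absurd h hb⟩
  choose x hx hxb using hBx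
  have hsub : ∀ b ∈ B, b ⊆ S := by
    intro b hb i hi
    rw [(hxb b hb).1] at hi
    exact (mem_thru.1 hi).1
  have hpair : ∀ b ∈ B, ∀ b' ∈ B, b ≠ b' → (b ∩ b').card ≤ 1 := by
    intro b hb b' hb' hne
    by_contra hcon
    push Not at hcon
    obtain ⟨i, hi, j, hj, hij⟩ := Finset.one_lt_card.1 hcon
    rw [Finset.mem_inter] at hi hj
    apply hne
    have e1 := (hxb b hb).1
    have e2 := (hxb b' hb').1
    obtain ⟨c, hc, hcx⟩ := thru_eq hl (hx b) (hx b') hij (e1 ▸ hi.1) (e1 ▸ hj.1) (e2 ▸ hi.2)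
      (e2 ▸ hj.2)
    rw [e1, e2, hcx, thru_smul hc]
  have hM : ∀ b ∈ B, b.card + 3 ≤ 2 * s := by
    intro b hb
    have h1 := hm (x b) (hx b)
    rw [mult_eq, ← (hxb b hb).1] at h1
    exact h1
  have hbound := blocks_bound hs hS hsub hpair hM
  have hcount : ∑ b ∈ B, (b.card / 2 - 1) * ((b.card / 2 - 1) + 1) <
      (s - 3 + 1) * (s - 3 + 2) := by
    have h1 : ((∑ b ∈ B, (b.card / 2 - 1) * ((b.card / 2 - 1) + 1) : ℕ) : ℤ) = ∑ b ∈ B, wt b := by
      rw [Nat.cast_sum]
      refine Finset.sum_congr rfl fun b _ => ?_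
      rw [wt]
      rcases Nat.eq_zero_or_pos (b.card / 2) with h | h
      · rw [h]
        simp
      · obtain ⟨r, hr⟩ : ∃ r, b.card / 2 = r + 1 := ⟨b.card / 2 - 1, by omega⟩
        rw [hr]
        push_cast
        simp
        ring
    have h2 : (((s - 3 + 1) * (s - 3 + 2) : ℕ) : ℤ) = ((s : ℤ) - 1) * (s - 2) := by
      obtain ⟨r, rfl⟩ : ∃ r, s = r + 3 := ⟨s - 3, by omega⟩
      simp
      ring
    have h3 : ((∑ b ∈ B, (b.card / 2 - 1) * ((b.card / 2 - 1) + 1) : ℕ) : ℤ) <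
        (((s - 3 + 1) * (s - 3 + 2) : ℕ) : ℤ) := by
      rw [h1, h2]
      exact hbound
    exact_mod_cast h3
  obtain ⟨P, hP0, hPh, hPv⟩ := exists_form B x hx (fun b => b.card / 2 - 1) (s - 3) hcount
  refine ⟨P, hP0, ?_, ?_⟩
  · have : S.card / 2 - 3 = s - 3 := by rw [hS]; omega
    rw [this]
    exact hPh
  · intro y hy
    rcases Nat.lt_or_ge (mult l S y) 4 with h4 | h4
    · have : mult l S y / 2 - 1 = 0 := by omega
      rw [this]
      intro w
      rw [pow_zero]
      exact one_dvd _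
    · rw [mult_eq] at h4
      obtain ⟨i, hi, j, hj, hij⟩ := Finset.one_lt_card.1 (show 1 < (thru l S y).card by omega)
      have hv := vtx_ne_zero (hl i j hij)
      have hvi : i ∈ thru l S (vtx (l i) (l j)) := mem_thru.2 ⟨(mem_thru.1 hi).1, ev_vtx_left _ _⟩
      have hvj : j ∈ thru l S (vtx (l i) (l j)) := mem_thru.2 ⟨(mem_thru.1 hj).1, ev_vtx_right _ _⟩
      set b := thru l S (vtx (l i) (l j)) with hb
      have hbB : b ∈ B := by
        rw [hB, Finset.mem_image]
        exact ⟨(i, j), Finset.mem_offDiag.2 ⟨(mem_thru.1 hi).1, (mem_thru.1 hj).1, hij⟩, rfl⟩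
      have e1 := (hxb b hbB).1
      obtain ⟨c, hc, hcx⟩ := thru_eq hl (hx b) hy hij (e1 ▸ hvi) (e1 ▸ hvj) hi hj
      have h5 := (hPv b hbB).smul hPh hc
      have h6 : mult l S y = b.card := by
        rw [mult_eq, hcx, thru_smul hc, ← e1]
      rw [h6, hcx]
      exact h5

end Pool.Agent.Kummer2
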