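import Pool.Agent.Kummer2.Pencil

/-!
# The action of the group ring on zero-cycles
-/

set_option autoImplicit false
set_option linter.unusedSectionVars false

open scoped LinearAlgebra.Projectivization
open Polynomial

namespace Pool.Agent.Kummer2

open Pool.Agent.Chow0

variable {ι : Type} [Fintype ι] [DecidableEq ι] {l : ι → Fin 3 → ℂ}

/-- The eigenvalue on the isotypic component of the character `g ↦ ∏ g i`, `i ∈ S`, of the element
`Γ` of the group ring. -/
def eigen (Γ : (ι → ℤˣ) → ℤ) (S : Finset ι) : ℤ := ∑ g, Γ g * (chi S g : ℤ)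

/-- The correspondence on the zero-cycles of the covering defined by an element of the group
ring. -/
noncomputable def corr (l : ι → Fin 3 → ℂ) (Γ : (ι → ℤˣ) → ℤ) : Z0 (Cover l) →+ Z0 (Cover l) :=
  ∑ g, Γ g • FreeAbelianGroup.map (act l g)

/-- the isotypic part of the class of a point -/
noncomputable def iso (l : ι → Fin 3 → ℂ) (S : Finset ι) (z : Cover l) : CH0 (Cover l) :=
  ∑ g, (chi S g : ℤ) • pt (act l g z)

lemma ov_rep (S : Finset ι) (z : Cover l) : ∃ x w, Ov l S z x w ∧
    ∀ g, Ov l S (act l g z) x (((chi S g : ℤ) : ℂ) * w) := by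
  obtain ⟨hz0, x, hx⟩ := z.2
  have h0 : IsRep (z : ℙ ℂ (ι → ℂ)).rep (z : ℙ ℂ (ι → ℂ)) := ⟨z.1.rep_nonzero, z.1.mk_rep⟩
  refine ⟨x, ∏ i ∈ S, (z : ℙ ℂ (ι → ℂ)).rep i, ⟨_, h0, hz0, hx, rfl⟩, fun g => ?_⟩
  refine ⟨sg g (z : ℙ ℂ (ι → ℂ)).rep, isRep_sg h0, sg_ne_zero hz0, fun i => ?_, prod_sg S g _⟩
  rw [sg_sq, hx]

lemma cl_orb (S : Finset ι) (z : Cover l) : cl (orb l S z) = ∑ g ∈ kr S, pt (act l g z) := by
  rw [cl, orb, Multiset.map_map]
  rfl

lemma act_neg (g : ι → ℤˣ) (z : Cover l) : act l (-g) z = act l g z := by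
  have h0 : IsRep (z : ℙ ℂ (ι → ℂ)).rep (z : ℙ ℂ (ι → ℂ)) := ⟨z.1.rep_nonzero, z.1.mk_rep⟩
  obtain ⟨h1, h2⟩ := isRep_sg (g := g) h0
  obtain ⟨h3, h4⟩ := isRep_sg (g := -g) h0
  apply Subtype.ext
  rw [← h2, ← h4, Projectivization.mk_eq_mk_iff']
  refine ⟨-1, ?_⟩
  funext i
  simp [sg]

lemma iso_eq_zero_of_odd {S : Finset ι} (hS : ¬ Even S.card) (z : Cover l) : iso l S z = 0 := by
  obtain ⟨i₀⟩ := nonempty_of_point (z : ℙ ℂ (ι → ℂ))
  rw [Nat.not_even_iff_odd] at hS
  refine Finset.sum_involution (fun g _ => -g) ?_ ?_ (fun _ _ => Finset.mem_univ _) ?_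
  · intro g _
    have h1 : chi S (-g) = -chi S g := by
      rw [chi, chi]
      have : ∀ i ∈ S, (-g) i = (-1) * g i := fun i _ => by simp
      rw [Finset.prod_congr rfl this, Finset.prod_mul_distrib, Finset.prod_const, hS.neg_one_pow]
      simp
    rw [act_neg, h1, Units.val_neg, neg_smul, add_neg_cancel]
  · intro g _ _ h
    have h1 := congrFun h i₀
    rw [Pi.neg_apply] at h1
    rcases Int.units_eq_one_or (g i₀) with h2 | h2 <;> rw [h2] at h1 <;> simp at h1
  · intro g _
    exact neg_neg g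

/-- the isotypic part vanishes when the two points over each point of the plane agree -/
lemma iso_eq_zero {S : Finset ι} (hne : S.Nonempty) (hv : ∀ x, Van l S x) (z : Cover l) :
    iso l S z = 0 := by
  obtain ⟨i, hi⟩ := hne
  set g₁ : ι → ℤˣ := Function.update 1 i (-1) with hg₁
  have hchi : chi S g₁ = -1 := by
    rw [chi, ← Finset.mul_prod_erase S _ hi, hg₁, Function.update_self, Finset.prod_eq_one, mul_one]
    intro j hj
    rw [Function.update_of_ne (Finset.ne_of_mem_erase hj)]
    rfl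
  obtain ⟨x, w, hzw, hact⟩ := ov_rep S z
  have h1 := hact g₁
  rw [hchi] at h1
  have h2 : Ov l S (act l g₁ z) x (-w) := by
    have : (((-1 : ℤˣ) : ℤ) : ℂ) * w = -w := by simp
    rw [this] at h1
    exact h1
  have h3 := hv x z (act l g₁ z) w hzw h2
  rw [cl_orb, cl_orb] at h3
  have h4 : ∑ g ∈ kr S, pt (act l g (act l g₁ z)) =
      ∑ g ∈ Finset.univ.filter (fun g => ¬ chi S g = 1), pt (act l g z) := by
    refine Finset.sum_bij' (fun g _ => g * g₁) (fun g _ => g * g₁) ?_ ?_ ?_ ?_ ?_
    · intro g hg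
      rw [mem_kr] at hg
      rw [Finset.mem_filter]
      refine ⟨Finset.mem_univ _, ?_⟩
      rw [chi_mul, hg, hchi, one_mul]
      decide
    · intro g hg
      rw [Finset.mem_filter] at hg
      rw [mem_kr, chi_mul, hchi]
      rcases Int.units_eq_one_or (chi S g) with h5 | h5
      · exact absurd h5 hg.2
      · rw [h5]
        decide
    · intro g _
      rw [mul_assoc]
      funext j
      simp
    · intro g _
      rw [mul_assoc]
      funext j
      simp
    · intro g _
      rw [act_act]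
  rw [iso, ← Finset.sum_filter_add_sum_filter_not Finset.univ (fun g => chi S g = 1)]
  have h5 : ∑ g ∈ Finset.univ.filter (fun g => chi S g = 1), (chi S g : ℤ) • pt (act l g z) =
      ∑ g ∈ kr S, pt (act l g z) := by
    refine Finset.sum_congr rfl fun g hg => ?_
    rw [(Finset.mem_filter.1 hg).2, Units.val_one, one_smul]
  have h6 : ∑ g ∈ Finset.univ.filter (fun g => ¬ chi S g = 1), (chi S g : ℤ) • pt (act l g z) =
      -∑ g ∈ Finset.univ.filter (fun g => ¬ chi S g = 1), pt (act l g z) := by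
    rw [← Finset.sum_neg_distrib]
    refine Finset.sum_congr rfl fun g hg => ?_
    rcases Int.units_eq_one_or (chi S g) with h5 | h5
    · exact absurd h5 (Finset.mem_filter.1 hg).2
    · rw [h5, Units.val_neg, Units.val_one, neg_smul, one_smul]
  rw [h5, h6, h3, h4, add_neg_cancel]

/-- the trivial isotypic part is constant -/
lemma iso_empty (z z' : Cover l) : iso l ∅ z = iso l ∅ z' := by
  have := nonempty_of_point (z : ℙ ℂ (ι → ℂ))
  have h1 : ∀ z : Cover l, iso l ∅ z = cl (orb l ∅ z) := by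
    intro z
    rw [cl_orb, iso]
    have : kr (∅ : Finset ι) = Finset.univ := by
      ext g
      simp [kr, chi]
    rw [this]
    refine Finset.sum_congr rfl fun g _ => ?_
    simp [chi]
  rw [h1, h1]
  obtain ⟨x, w, hz, -⟩ := ov_rep ∅ z
  obtain ⟨x', w', hz', -⟩ := ov_rep ∅ z'
  have hw : w = 1 := by
    obtain ⟨v, _, _, _, h⟩ := hz
    rw [← h, Finset.prod_empty]
  have hw' : w' = 1 := by
    obtain ⟨v, _, _, _, h⟩ := hz'
    rw [← h, Finset.prod_empty]
  rw [hw] at hz
  rw [hw'] at hz'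
  refine orb_curve (q := fun i => C (ev (l i) x) + X * C (ev (l i) x' - ev (l i) x)) (w := 1)
    (x₀ := x) (x₁ := x') (fun _ t => eval_one) ?_ ?_ ?_ ?_ ?_ ?_
  · intro t
    refine ⟨fun j => (1 - t) * x j + t * x' j, fun i => ?_⟩
    rw [ev_comb]
    simp only [eval_add, eval_mul, eval_C, eval_X]
    ring
  · rw [one_pow, Finset.prod_empty]
  · intro i
    simp
  · intro i
    simp
  · rw [eval_one]
    exact hz
  · rw [eval_one]
    exact hz'

/-- orthogonality of characters -/
lemma sum_chi (g : ι → ℤˣ) : ∑ S : Finset ι, (chi S g : ℤ) =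
    if g = 1 then 2 ^ Fintype.card ι else 0 := by
  have h1 : ∑ S : Finset ι, (chi S g : ℤ) = ∏ i, (1 + (g i : ℤ)) := by
    rw [Finset.prod_one_add]
    rw [Finset.powerset_univ]
    refine Finset.sum_congr rfl fun S _ => ?_
    rw [chi]
    push_cast
    rfl
  rw [h1]
  split_ifs with h
  · rw [h]
    simp
  · obtain ⟨i, hi⟩ := Function.ne_iff.1 h
    refine Finset.prod_eq_zero (Finset.mem_univ i) ?_
    rcases Int.units_eq_one_or (g i) with h2 | h2
    · exact absurd h2 hi
    · rw [h2]
      simp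

/-- Fourier inversion on a point -/
lemma fourier (Γ : (ι → ℤˣ) → ℤ) (z : Cover l) :
    (2 ^ Fintype.card ι : ℤ) • ∑ g, Γ g • pt (act l g z) = ∑ S, eigen Γ S • iso l S z := by
  have h1 : ∀ S : Finset ι, eigen Γ S • iso l S z =
      ∑ h, ∑ g, (Γ g * ((chi S (g * h) : ℤˣ) : ℤ)) • pt (act l h z) := by
    intro S
    rw [iso, Finset.smul_sum]
    refine Finset.sum_congr rfl fun h _ => ?_
    rw [eigen, smul_smul, Finset.sum_mul, Finset.sum_smul]
    refine Finset.sum_congr rfl fun g _ => ?_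
    rw [chi_mul, Units.val_mul, mul_assoc]
  rw [Finset.sum_congr rfl fun S _ => h1 S, Finset.sum_comm, Finset.smul_sum]
  refine Finset.sum_congr rfl fun h _ => ?_
  rw [Finset.sum_comm]
  have h2 : ∀ g : ι → ℤˣ, ∑ S : Finset ι, (Γ g * ((chi S (g * h) : ℤˣ) : ℤ)) • pt (act l h z) =
      (Γ g * if g * h = 1 then 2 ^ Fintype.card ι else 0) • pt (act l h z) := by
    intro g
    rw [← Finset.sum_smul, ← Finset.mul_sum, sum_chi]
  rw [Finset.sum_congr rfl fun g _ => h2 g, Finset.sum_eq_single h]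
  · have h3 : h * h = 1 := by
      funext i
      simp
    rw [if_pos h3, smul_smul, mul_comm]
  · intro g _ hg
    have h3 : g * h ≠ 1 := by
      intro h4
      apply hg
      funext i
      have h5 := congrFun h4 i
      simp only [Pi.mul_apply, Pi.one_apply] at h5
      rcases Int.units_eq_one_or (g i) with h6 | h6 <;>
        rcases Int.units_eq_one_or (h i) with h7 | h7 <;> rw [h6, h7] at h5 ⊢ <;>
        exact absurd h5 (by decide)
    rw [if_neg h3, mul_zero, zero_smul]
  · intro h3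
    exact absurd (Finset.mem_univ h) h3

/-- the homomorphism onto the classes -/
def toCH0 : Z0 (Cover l) →+ CH0 (Cover l) := QuotientAddGroup.mk' (ratTriv (Cover l))

lemma toCH0_of (z : Cover l) : toCH0 (FreeAbelianGroup.of z) = pt z := rfl

lemma fourier_cycle (Γ : (ι → ℤˣ) → ℤ) (z : Z0 (Cover l)) :
    toCH0 ((2 ^ Fintype.card ι : ℤ) • corr l Γ z) =
      ∑ S, eigen Γ S • FreeAbelianGroup.lift (iso l S) z := by
  have h : (toCH0.comp ((2 ^ Fintype.card ι : ℤ) • corr l Γ) : Z0 (Cover l) →+ CH0 (Cover l)) =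
      ∑ S, eigen Γ S • FreeAbelianGroup.lift (iso l S) := by
    apply FreeAbelianGroup.lift_ext
    intro p
    simp only [AddMonoidHom.comp_apply, AddMonoidHom.smul_apply, AddMonoidHom.finsetSum_apply,
      FreeAbelianGroup.lift_apply_of, corr, map_sum, FreeAbelianGroup.map_of_apply, map_zsmul,
      toCH0_of]
    exact fourier Γ p
  have h2 := congrArg (fun f => f z) h
  simp only [AddMonoidHom.comp_apply, AddMonoidHom.smul_apply, AddMonoidHom.finsetSum_apply] at h2
  exact h2

lemma lift_const {S : Finset ι} {a : CH0 (Cover l)} (h : ∀ z, iso l S z = a) {z : Z0 (Cover l)}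
    (hz : deg z = 0) : FreeAbelianGroup.lift (iso l S) z = 0 := by
  have h1 : FreeAbelianGroup.lift (iso l S) =
      (AddMonoidHom.flip (smulAddHom ℤ (CH0 (Cover l))) a).comp deg := by
    apply FreeAbelianGroup.lift_ext
    intro p
    rw [FreeAbelianGroup.lift_apply_of, h]
    simp [deg]
  rw [h1, AddMonoidHom.comp_apply, hz, map_zero]

/-- **The main theorem.** -/
theorem corr_mem (hl : Distinct l) {Γ : (ι → ℤˣ) → ℤ}
    (h2 : ∀ (S : Finset ι) (P : MvPolynomial (Fin 3) ℂ), Even S.card → 6 ≤ S.card →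
      IsAdjoint l S P → (eigen Γ S : ℂ) • P = 0)
    (h1 : ∀ S : Finset ι, Even S.card → 4 ≤ S.card → Concurrent l S → eigen Γ S = 0)
    {z : Z0 (Cover l)} (hz : deg z = 0) :
    (2 ^ Fintype.card ι : ℤ) • corr l Γ z ∈ ratTriv (Cover l) := by
  rw [← QuotientAddGroup.eq_zero_iff]
  change toCH0 ((2 ^ Fintype.card ι : ℤ) • corr l Γ z) = 0
  rw [fourier_cycle]
  refine Finset.sum_eq_zero fun S _ => ?_
  by_cases h0 : eigen Γ S = 0
  · rw [h0, zero_smul]
  have hlift : FreeAbelianGroup.lift (iso l S) z = 0 := by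
    rcases S.eq_empty_or_nonempty with hS | hS
    · subst hS
      by_cases hne : Nonempty (Cover l)
      · obtain ⟨p₀⟩ := hne
        exact lift_const (a := iso l ∅ p₀) (fun p => iso_empty p p₀) hz
      · have hz0 : z = 0 := by
          refine FreeAbelianGroup.induction_on z rfl ?_ ?_ ?_
          · intro p; exact absurd ⟨p⟩ hne
          · intro p; exact absurd ⟨p⟩ hne
          · intro a b ha hb; rw [ha, hb, add_zero]
        rw [hz0, map_zero]
    · refine lift_const (a := 0) (fun p => ?_) hz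
      by_cases hev : Even S.card
      · refine iso_eq_zero hS (van_of_no_adjoint hl hev hS ?_ ?_) p
        · intro h4 hcon
          exact h0 (h1 S hev h4 hcon)
        · intro h6 P hP
          have h3 := h2 S P hev h6 hP
          rcases smul_eq_zero.1 h3 with h4 | h4
          · exfalso
            apply h0
            exact_mod_cast h4
          · exact h4
      · exact iso_eq_zero_of_odd hev p
  rw [hlift, smul_zero]

end Pool.Agent.Kummer2
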