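import Pool.Agent.Kummer2.Defs

/-!
# Sign changes and products of linear forms
-/

set_option autoImplicit false

open MvPolynomial

namespace Pool.Agent.Kummer2

open Pool.Agent.Chow0

variable {ι : Type} [Fintype ι] [DecidableEq ι]

/-- a change of signs of the coordinates -/
def sg (g : ι → ℤˣ) (v : ι → ℂ) : ι → ℂ := fun i => ((g i : ℤ) : ℂ) * v i

/-- the character attached to a set of indices -/
def chi (S : Finset ι) (g : ι → ℤˣ) : ℤˣ := ∏ i ∈ S, g i

/-- the kernel of a character -/
def kr (S : Finset ι) : Finset (ι → ℤˣ) := Finset.univ.filter fun g => chi S g = 1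

lemma mem_kr {S : Finset ι} {g : ι → ℤˣ} : g ∈ kr S ↔ chi S g = 1 := by
  simp [kr]

omit [Fintype ι] [DecidableEq ι] in
lemma chi_mul (S : Finset ι) (g h : ι → ℤˣ) : chi S (g * h) = chi S g * chi S h := by
  simp [chi, Finset.prod_mul_distrib]

omit [Fintype ι] [DecidableEq ι] in
lemma chi_one (S : Finset ι) : chi S 1 = 1 := by simp [chi]

omit [Fintype ι] [DecidableEq ι] in
lemma sg_mul (g h : ι → ℤˣ) (v : ι → ℂ) : sg (g * h) v = sg g (sg h v) := by
  funext i
  simp [sg, mul_assoc]

omit [Fintype ι] [DecidableEq ι] in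
lemma sg_one (v : ι → ℂ) : sg 1 v = v := by
  funext i
  simp [sg]

omit [Fintype ι] [DecidableEq ι] in
lemma unit_sq (u : ℤˣ) : ((u : ℤ) : ℂ) ^ 2 = 1 := by
  rcases Int.units_eq_one_or u with h | h <;> rw [h] <;> simp

omit [Fintype ι] [DecidableEq ι] in
lemma sg_sq (g : ι → ℤˣ) (v : ι → ℂ) (i : ι) : sg g v i ^ 2 = v i ^ 2 := by
  rw [sg, mul_pow, unit_sq, one_mul]

omit [Fintype ι] [DecidableEq ι] in
lemma prod_sg (S : Finset ι) (g : ι → ℤˣ) (v : ι → ℂ) :
    ∏ i ∈ S, sg g v i = ((chi S g : ℤ) : ℂ) * ∏ i ∈ S, v i := by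
  simp [sg, chi, Finset.prod_mul_distrib]

/-- the product of the linear forms of the points of an orbit -/
noncomputable def normForm (S : Finset ι) (v : ι → ℂ) : MvPolynomial ι ℂ :=
  ∏ g ∈ kr S, linForm (sg g v)

/-- the universal version of the product -/
noncomputable def uni (S : Finset ι) : MvPolynomial ι (MvPolynomial ι ℂ) :=
  ∏ g ∈ kr S, ∑ i, C (C ((g i : ℤ) : ℂ) * X i) * X i

lemma eval_uni (S : Finset ι) (v : ι → ℂ) :
    eval (fun i => (C (v i) : MvPolynomial ι ℂ)) (uni S) = normForm S v := by
  rw [uni, map_prod, normForm]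
  refine Finset.prod_congr rfl fun g _ => ?_
  rw [map_sum, linForm]
  refine Finset.sum_congr rfl fun i _ => ?_
  rw [map_mul, eval_C, eval_X, sg, C_mul]
  ring

omit [DecidableEq ι] in
lemma coeff_scale {R : Type} [CommRing R] (a : ι → R) (p : MvPolynomial ι R) (d : ι →₀ ℕ) :
    coeff d (aeval (fun i => (C (a i) * X i : MvPolynomial ι R)) p) =
      (∏ i, a i ^ d i) * coeff d p := by
  classical
  induction p using MvPolynomial.induction_on' with
  | monomial e r =>
    have h : aeval (fun i => (C (a i) * X i : MvPolynomial ι R)) (monomial e r) =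
        monomial e ((∏ i, a i ^ e i) * r) := by
      rw [aeval_monomial, Finsupp.prod_fintype _ _ (fun i => pow_zero _)]
      simp only [mul_pow, Finset.prod_mul_distrib, ← C_pow, ← map_prod]
      rw [algebraMap_eq, ← mul_assoc, ← C_mul, monomial_eq,
        Finsupp.prod_fintype _ _ (fun i => pow_zero _), mul_comm r]
    rw [h, coeff_monomial, coeff_monomial]
    split_ifs with h1
    · rw [h1]
    · rw [mul_zero]
  | add p q hp hq => rw [map_add, coeff_add, coeff_add, hp, hq, mul_add]

lemma uni_invariant {S : Finset ι} {h : ι → ℤˣ} (hh : h ∈ kr S) :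
    aeval (fun i => (C (((h i : ℤ) : MvPolynomial ι ℂ)) * X i :
      MvPolynomial ι (MvPolynomial ι ℂ))) (uni S) = uni S := by
  rw [uni, map_prod]
  refine Finset.prod_bij' (fun g _ => g * h) (fun g _ => g * h) ?_ ?_ ?_ ?_ ?_
  · intro g hg
    rw [mem_kr] at hg hh ⊢
    rw [chi_mul, hg, hh, one_mul]
  · intro g hg
    rw [mem_kr] at hg hh ⊢
    rw [chi_mul, hg, hh, one_mul]
  · intro g _
    rw [mul_assoc]
    funext i
    simp
  · intro g _
    rw [mul_assoc]
    funext i
    simp
  · intro g _
    rw [map_sum]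
    refine Finset.sum_congr rfl fun i _ => ?_
    rw [map_mul, aeval_X, algHom_C, algebraMap_eq]
    simp only [Pi.mul_apply, Units.val_mul, Int.cast_mul, C_mul, map_intCast]
    ring

/-- the monomials of the product: parities -/
lemma parity_of_coeff_ne_zero {S : Finset ι} {d : ι →₀ ℕ} (hd : coeff d (uni S) ≠ 0) :
    (∀ i, i ∉ S → Even (d i)) ∧ ∀ i ∈ S, ∀ j ∈ S, (Even (d i) ↔ Even (d j)) := by
  have key : ∀ h ∈ kr S, ∏ i, (((h i : ℤ) : MvPolynomial ι ℂ)) ^ d i = 1 := by
    intro h hh
    have h1 := congrArg (coeff d) (uni_invariant hh)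
    rw [coeff_scale] at h1
    have h2 : (∏ i, (((h i : ℤ) : MvPolynomial ι ℂ)) ^ d i - 1) * coeff d (uni S) = 0 := by
      rw [sub_mul, one_mul, h1, sub_self]
    rcases mul_eq_zero.1 h2 with h3 | h3
    · exact sub_eq_zero.1 h3
    · exact absurd h3 hd
  constructor
  · intro i hi
    have hmem : Function.update (1 : ι → ℤˣ) i (-1) ∈ kr S := by
      rw [mem_kr, chi]
      refine Finset.prod_eq_one fun j hj => ?_
      rw [Function.update_of_ne (ne_of_mem_of_not_mem hj hi)]
      rfl
    have h1 := key _ hmem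
    rw [Finset.prod_eq_single i] at h1
    · rw [Function.update_self] at h1
      by_contra hodd
      rw [Nat.not_even_iff_odd] at hodd
      rw [Units.val_neg, Units.val_one, Int.cast_neg, Int.cast_one, hodd.neg_one_pow] at h1
      have h2 : (2 : MvPolynomial ι ℂ) = 0 := by linear_combination -h1
      exact two_ne_zero h2
    · intro j _ hj
      rw [Function.update_of_ne hj]
      simp
    · intro h
      exact absurd (Finset.mem_univ i) h
  · intro i hi j hj
    by_cases hij : i = j
    · rw [hij]
    have hmem : Function.update (Function.update (1 : ι → ℤˣ) i (-1)) j (-1) ∈ kr S := by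
      rw [mem_kr, chi, ← Finset.mul_prod_erase S _ hj,
        ← Finset.mul_prod_erase (S.erase j) _ (Finset.mem_erase.2 ⟨hij, hi⟩),
        Function.update_self, Function.update_of_ne hij, Function.update_self]
      rw [Finset.prod_eq_one]
      · simp
      · intro k hk
        rw [Finset.mem_erase, Finset.mem_erase] at hk
        rw [Function.update_of_ne hk.2.1, Function.update_of_ne hk.1]
        rfl
    have h1 := key _ hmem
    rw [← Finset.mul_prod_erase Finset.univ _ (Finset.mem_univ j),
        ← Finset.mul_prod_erase (Finset.univ.erase j) _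
          (Finset.mem_erase.2 ⟨hij, Finset.mem_univ i⟩),
        Function.update_self, Function.update_of_ne hij, Function.update_self,
        Finset.prod_eq_one] at h1
    · rw [Units.val_neg, Units.val_one, Int.cast_neg, Int.cast_one, mul_one, ← pow_add] at h1
      have h2 : Even (d j + d i) := by
        by_contra hodd
        rw [Nat.not_even_iff_odd] at hodd
        rw [hodd.neg_one_pow] at h1
        have h2 : (2 : MvPolynomial ι ℂ) = 0 := by linear_combination -h1
        exact two_ne_zero h2
      rw [Nat.even_add] at h2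
      exact h2.symm
    · intro k hk
      rw [Finset.mem_erase, Finset.mem_erase] at hk
      rw [Function.update_of_ne hk.2.1, Function.update_of_ne hk.1]
      simp

/-- half of an exponent -/
noncomputable def half (d : ι →₀ ℕ) : ι →₀ ℕ := d.mapRange (fun n => n / 2) rfl

/-- **Structure of the products of linear forms over an orbit.** -/
theorem exists_forms (S : Finset ι) : ∃ Q₀ Q₁ : MvPolynomial ι (MvPolynomial ι ℂ),
    ∀ v : ι → ℂ, normForm S v = eval (fun i => (C (v i ^ 2) : MvPolynomial ι ℂ)) Q₀ +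
      C (∏ i ∈ S, v i) * eval (fun i => (C (v i ^ 2) : MvPolynomial ι ℂ)) Q₁ := by
  classical
  refine ⟨∑ d ∈ (uni S).support.filter (fun d => ∀ i, Even (d i)),
      monomial (half d) (coeff d (uni S)),
    ∑ d ∈ (uni S).support.filter (fun d => ¬ ∀ i, Even (d i)),
      monomial (half d) (coeff d (uni S)), fun v => ?_⟩
  have hexp : normForm S v = ∑ d ∈ (uni S).support,
      coeff d (uni S) * ∏ i, (C (v i) : MvPolynomial ι ℂ) ^ d i := by
    rw [← eval_uni, eval_eq']
  rw [hexp, ← Finset.sum_filter_add_sum_filter_not _ (fun d => ∀ i, Even (d i)), map_sum, map_sum,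
    Finset.mul_sum]
  congr 1
  · refine Finset.sum_congr rfl fun d hd => ?_
    rw [Finset.mem_filter] at hd
    rw [eval_monomial, Finsupp.prod_fintype _ _ (fun i => pow_zero _)]
    congr 1
    refine Finset.prod_congr rfl fun i _ => ?_
    rw [C_pow, ← pow_mul]
    congr 1
    obtain ⟨k, hk⟩ := hd.2 i
    change d i = 2 * (d i / 2)
    omega
  · refine Finset.sum_congr rfl fun d hd => ?_
    rw [Finset.mem_filter, mem_support_iff] at hd
    obtain ⟨hout, hin⟩ := parity_of_coeff_ne_zero hd.1
    obtain ⟨i₀, hi₀⟩ := not_forall.1 hd.2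
    have hi₀S : i₀ ∈ S := by
      by_contra h
      exact hi₀ (hout i₀ h)
    have hodd : ∀ i ∈ S, ¬ Even (d i) := fun i hi h => hi₀ ((hin i hi i₀ hi₀S).1 h)
    rw [eval_monomial, Finsupp.prod_fintype _ _ (fun i => pow_zero _), mul_left_comm]
    congr 1
    have hS : ∏ i ∈ S, (C (v i) : MvPolynomial ι ℂ) =
        ∏ i, if i ∈ S then (C (v i) : MvPolynomial ι ℂ) else 1 := by
      rw [Finset.prod_ite_mem, Finset.univ_inter]
    rw [map_prod, hS, ← Finset.prod_mul_distrib]
    refine Finset.prod_congr rfl fun i _ => ?_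
    rw [C_pow, ← pow_mul]
    change (C (v i) : MvPolynomial ι ℂ) ^ d i = _ * C (v i) ^ (2 * (d i / 2))
    split_ifs with hi
    · have h1 := hodd i hi
      rw [Nat.not_even_iff_odd] at h1
      obtain ⟨k, hk⟩ := h1
      rw [← pow_succ']
      congr 1
      omega
    · obtain ⟨k, hk⟩ := hout i hi
      rw [one_mul]
      congr 1
      omega

end Pool.Agent.Kummer2
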