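import Pool.Agent.Kummer2.Vanish

/-!
# From general points to all points
-/

set_option autoImplicit false
set_option linter.unusedSectionVars false

open scoped LinearAlgebra.Projectivization
open Polynomial

namespace Pool.Agent.Kummer2

open Pool.Agent.Chow0

variable {ι : Type} [Fintype ι] [DecidableEq ι] {l : ι → Fin 3 → ℂ}

lemma eventually_eval_ne {f : ℂ[X]} (hf : f ≠ 0) : ∀ᶠ c : ℂ in Filter.cofinite, f.eval c ≠ 0 := by
  rw [Filter.eventually_cofinite]
  refine f.roots.toFinset.finite_toSet.subset ?_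
  intro t ht
  rw [Finset.mem_coe, Multiset.mem_toFinset, mem_roots hf]
  exact not_not.1 ht

lemma eventually_sq_ne (a r : ℂ) {b : ℂ} (hb : b ≠ 0) :
    ∀ᶠ c : ℂ in Filter.cofinite, (a + c * b) ^ 2 ≠ r := by
  have hne : (C a + X * C b) ^ 2 - C r ≠ 0 := by
    intro h
    have h1 := congrArg (fun f => coeff f 2) h
    have h2 : ((C a + X * C b) ^ 2 - C r : ℂ[X]) = C (a ^ 2 - r) + C (2 * a * b) * X +
        C (b ^ 2) * X ^ 2 := by
      simp only [C_sub, C_mul, C_pow]
      have : (C 2 : ℂ[X]) = 2 := rfl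
      rw [this]
      ring
    simp only [h2] at h1
    rw [coeff_add, coeff_add, coeff_C_mul, coeff_C_mul, coeff_X_pow, coeff_X, coeff_C] at h1
    simp at h1
    exact hb h1
  filter_upwards [eventually_eval_ne hne] with c hc h
  apply hc
  simp only [eval_sub, eval_pow, eval_add, eval_mul, eval_C, eval_X]
  rw [h, sub_self]

lemma eventually_ne' (r : ℂ) : ∀ᶠ c : ℂ in Filter.cofinite, c ≠ r := by
  rw [Filter.eventually_cofinite]
  refine (Set.finite_singleton r).subset ?_
  intro c hc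
  exact not_not.1 hc

lemma exists_avoid {κ : Type} [Finite κ] (a : κ → Fin 3 → ℂ) (ha : ∀ k, a k ≠ 0) :
    ∃ y, ∀ k, ev (a k) y ≠ 0 := by
  have h1 : ∀ k, ∀ᶠ c : ℂ in Filter.cofinite, ev (a k) ![1, c, c ^ 2] ≠ 0 := by
    intro k
    have hne : (C (a k 0) + C (a k 1) * X + C (a k 2) * X ^ 2 : ℂ[X]) ≠ 0 := by
      intro h
      apply ha k
      have h0 := congrArg (fun f => coeff f 0) h
      have h1 := congrArg (fun f => coeff f 1) h
      have h2 := congrArg (fun f => coeff f 2) h
      simp [coeff_X, coeff_C] at h0 h1 h2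
      funext j
      fin_cases j
      · exact h0
      · exact h1
      · exact h2
    filter_upwards [eventually_eval_ne hne] with c hc h
    apply hc
    simp [ev, Fin.sum_univ_three] at h
    simp
    linear_combination h
  obtain ⟨c, hc⟩ := (Filter.eventually_all.2 h1).exists
  exact ⟨_, hc⟩

/-- splitting off a simple root at zero -/
lemma roots_of_simple {R : ℂ[X]} (h0 : R.eval 0 = 0) (h1 : R.derivative.eval 0 ≠ 0) :
    ∃ r : Multiset ℂ, R.roots = 0 ::ₘ r ∧ (0 : ℂ) ∉ r := by
  obtain ⟨g, hg⟩ := X_dvd_iff.2 (by rw [← coeff_zero_eq_eval_zero] at h0; exact h0)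
  have hg0 : g.eval 0 = R.derivative.eval 0 := by
    rw [hg, derivative_mul, derivative_X]
    simp
  have hgne : g.eval 0 ≠ 0 := by rw [hg0]; exact h1
  have hgn : g ≠ 0 := by
    rintro rfl
    exact hgne eval_zero
  refine ⟨g.roots, ?_, ?_⟩
  · rw [hg, roots_mul (mul_ne_zero X_ne_zero hgn), roots_X]
    rfl
  · intro h
    exact hgne ((mem_roots hgn).1 h)

lemma ev_line (a x y : Fin 3 → ℂ) (u : ℂ) :
    ev a (fun j => x j + u * y j) = ev a x + u * ev a y := by
  simp only [ev, Fin.sum_univ_three]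
  ring

/-- **From general points to all points.** -/
theorem van_of_generic {S : Finset ι} {s : ℕ} (hs : 1 ≤ s) (hcard : S.card = 2 * s)
    (hl0 : ∀ i, l i ≠ 0) {m : Fin 3 → ℂ} (hm : m ≠ 0) (h : ∀ x, ev m x ≠ 0 → Van l S x)
    (x : Fin 3 → ℂ) : Van l S x := by
  by_cases hmx : ev m x = 0
  swap
  · exact h x hmx
  intro z z' w hz hz'
  have hSne : S.Nonempty := by
    rw [← Finset.card_pos, hcard]
    omega
  have : Nonempty ι := ⟨hSne.choose⟩
  -- a transversal direction
  obtain ⟨y, hy⟩ := exists_avoid (fun k : Option ι => k.elim m l) (by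
    rintro (_ | i)
    · exact hm
    · exact hl0 i)
  have hmy : ev m y ≠ 0 := hy none
  have hly : ∀ i, ev (l i) y ≠ 0 := fun i => hy (some i)
  have hlx : ∀ i, ev (l i) x ≠ 0 := fun i => hz.ev_ne_zero i
  have hw0 : w ≠ 0 := by
    intro h0
    have := hz.sq_eq
    rw [h0, zero_pow two_ne_zero] at this
    exact Finset.prod_ne_zero_iff.2 (fun i _ => hlx i) this.symm
  set f : ℂ[X] := ∏ i ∈ S, (C (ev (l i) x) + X * C (ev (l i) y)) with hf
  have hfe : ∀ u, f.eval u = ∏ i ∈ S, (ev (l i) x + u * ev (l i) y) := by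
    intro u
    rw [hf, eval_prod]
    refine Finset.prod_congr rfl fun i _ => ?_
    simp only [eval_add, eval_mul, eval_C, eval_X]
  have hlin : ∀ i, (C (ev (l i) x) + X * C (ev (l i) y) : ℂ[X]).natDegree ≤ 1 := by
    intro i
    refine natDegree_add_le_of_degree_le (by rw [natDegree_C]; exact zero_le_one) ?_
    refine natDegree_mul_le.trans ?_
    rw [natDegree_X, natDegree_C]
  have hfd : f.natDegree ≤ 2 * s := by
    rw [hf, ← hcard]
    refine (natDegree_prod_le _ _).trans ?_
    refine (Finset.sum_le_card_nsmul _ _ 1 fun i _ => hlin i).trans ?_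
    simp
  set lam : ℂ := ∏ i ∈ S, ev (l i) y with hlam
  have hlam0 : lam ≠ 0 := Finset.prod_ne_zero_iff.2 fun i _ => hly i
  have hfc : f.coeff (2 * s) = lam := by
    have h1 := coeff_prod_of_natDegree_le S (fun i => (C (ev (l i) x) + X * C (ev (l i) y) : ℂ[X]))
      1 (fun i _ => hlin i)
    rw [hcard, mul_one] at h1
    rw [hf, h1, hlam]
    refine Finset.prod_congr rfl fun i _ => ?_
    simp
  -- the intersection points with the lines
  set u₀ : ι → ℂ := fun i => -(ev (l i) x / ev (l i) y) with hu₀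
  have hu₀ne : ∀ i, u₀ i ≠ 0 := fun i => neg_ne_zero.2 (div_ne_zero (hlx i) (hly i))
  have hroot : ∀ i u, ev (l i) x + u * ev (l i) y = 0 → u = u₀ i := by
    intro i u hu
    have hyi := hly i
    rw [hu₀]
    field_simp
    linear_combination hu
  -- choice of the slope
  obtain ⟨c, hc1, hc2, hc3⟩ : ∃ c : ℂ, (∀ i, (w + c * u₀ i) ^ 2 ≠ f.eval (u₀ i)) ∧
      c ≠ f.derivative.eval 0 / (2 * w) ∧ (0 + c * 1) ^ 2 ≠ lam :=
    ((Filter.eventually_all.2 fun i => eventually_sq_ne w (f.eval (u₀ i)) (hu₀ne i)).and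
      ((eventually_ne' _).and (eventually_sq_ne 0 lam one_ne_zero))).exists
  obtain ⟨w', hw1, hw2⟩ : ∃ w' : ℂ, (0 + w' * 1) ^ 2 ≠ w ^ 2 ∧
      ∀ i, (c * u₀ i + w' * 1) ^ 2 ≠ f.eval (u₀ i) :=
    ((eventually_sq_ne 0 (w ^ 2) one_ne_zero).and (Filter.eventually_all.2 fun i =>
      eventually_sq_ne (c * u₀ i) (f.eval (u₀ i)) one_ne_zero)).exists
  have hww : w' - w ≠ 0 := by
    intro h0
    apply hw1
    rw [sub_eq_zero.1 h0]
    ring
  -- the pencil
  set P : ℂ[X][X] := C (C w + X * C (w' - w)) + C (C c) * X with hP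
  set Q : ℂ[X][X] := P ^ 2 - f.map C with hQ
  have hspecP : ∀ t, spec t P = C (w + t * (w' - w)) + C c * X := by
    intro t
    simp [spec, hP]
  have hspecQ : ∀ t, spec t Q = (C (w + t * (w' - w)) + C c * X) ^ 2 - f := by
    intro t
    have h1 : spec t Q = (spec t P) ^ 2 - spec t (f.map C) := by
      simp [spec, hQ]
    have h2 : spec t (f.map C) = f := by
      rw [spec, Polynomial.map_map]
      have : (evalRingHom t).comp (C : ℂ →+* ℂ[X]) = RingHom.id ℂ := by
        ext <;> simp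
      rw [this, Polynomial.map_id]
    rw [h1, h2, hspecP]
  have hspecPe : ∀ t u, (spec t P).eval u = w + t * (w' - w) + c * u := by
    intro t u
    rw [hspecP]
    simp
  have hspecQe : ∀ t u, (spec t Q).eval u = (w + t * (w' - w) + c * u) ^ 2 - f.eval u := by
    intro t u
    rw [hspecQ]
    simp
  have hPd : P.natDegree ≤ 1 := by
    refine natDegree_add_le_of_degree_le (by rw [natDegree_C]; exact zero_le_one) ?_
    exact (natDegree_C_mul_le _ _).trans natDegree_X_le
  have hQd : Q.natDegree ≤ 2 * s := by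
    have h1 : (P ^ 2).natDegree ≤ 2 * s := (natDegree_pow_le_of_le 2 hPd).trans (by omega)
    have h2 := natDegree_sub_le_of_le h1 (natDegree_map_le (f := (C : ℂ →+* ℂ[X])).trans hfd)
    rw [max_self] at h2
    exact h2
  have hQc : ∀ t, (Q.coeff (2 * s)).eval t ≠ 0 := by
    intro t
    have h1 : (f.map (C : ℂ →+* ℂ[X])).coeff (2 * s) = C lam := by rw [coeff_map, hfc]
    rw [hQ, coeff_sub, h1]
    rcases Nat.lt_or_ge 1 s with h2 | h2
    · have h3 : (P ^ 2).coeff (2 * s) = 0 := by
        apply coeff_eq_zero_of_natDegree_lt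
        have := natDegree_pow_le_of_le 2 hPd
        omega
      rw [h3, zero_sub, eval_neg, eval_C]
      exact neg_ne_zero.2 hlam0
    · have h3 : s = 1 := le_antisymm h2 hs
      have h4 : (P ^ 2).coeff (2 * 1) = (P.coeff 1) ^ 2 := coeff_pow_of_natDegree_le hPd
      have h5 : P.coeff 1 = C c := by
        rw [hP]
        simp [coeff_C]
      rw [h3, h4, h5, eval_sub, eval_pow, eval_C, eval_C, sub_ne_zero]
      rw [zero_add, mul_one] at hc3
      exact hc3
  -- the coordinates
  set q : ι → ℂ[X][X] := fun i => C (C (ev (l i) x)) + X * C (C (ev (l i) y)) with hq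
  have hqe : ∀ t u i, (spec t (q i)).eval u = ev (l i) x + u * ev (l i) y := by
    intro t u i
    simp only [spec, hq, Polynomial.map_add, Polynomial.map_mul, Polynomial.map_C, map_X,
      coe_evalRingHom, eval_add, eval_mul, eval_C, eval_X]
  have hqx : ∀ t u i, (spec t (q i)).eval u = ev (l i) (fun j => x j + u * y j) := by
    intro t u i
    rw [hqe, ev_line]
  -- good roots
  have hgoodt : ∀ t, (∀ i, (w + t * (w' - w) + c * u₀ i) ^ 2 ≠ f.eval (u₀ i)) →
      ∀ u ∈ (spec t Q).roots, ∀ i, ev (l i) (fun j => x j + u * y j) ≠ 0 := by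
    intro t ht u hu i h0
    rw [ev_line] at h0
    have h1 := hroot i u h0
    have h2 := (mem_roots'.1 hu).2
    rw [IsRoot, hspecQe, h1] at h2
    exact ht i (sub_eq_zero.1 h2)
  have hg0 : ∀ i, (w + 0 * (w' - w) + c * u₀ i) ^ 2 ≠ f.eval (u₀ i) := by
    intro i
    rw [zero_mul, add_zero]
    exact hc1 i
  have hg1 : ∀ i, (w + 1 * (w' - w) + c * u₀ i) ^ 2 ≠ f.eval (u₀ i) := by
    intro i
    have := hw2 i
    have h2 : w + 1 * (w' - w) + c * u₀ i = c * u₀ i + w' * 1 := by ring
    rw [h2]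
    exact this
  have hsq : ∀ t u, u ∈ (spec t Q).roots → (w + t * (w' - w) + c * u) ^ 2 =
      ∏ i ∈ S, ev (l i) (fun j => x j + u * y j) := by
    intro t u hu
    have h2 := (mem_roots'.1 hu).2
    rw [IsRoot, hspecQe, hfe] at h2
    simp only [ev_line]
    exact sub_eq_zero.1 h2
  have hexp : ∀ t (ε : ℂ), ε ^ 2 = 1 → (∀ i, (w + t * (w' - w) + c * u₀ i) ^ 2 ≠ f.eval (u₀ i)) →
      ∃ ζ : ℂ → Cover l, ∀ u ∈ (spec t Q).roots,
        Ov l S (ζ u) (fun j => x j + u * y j) (ε * (w + t * (w' - w) + c * u)) := by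
    intro t ε hε ht
    have h1 : ∀ u, ∃ ζ : Cover l, u ∈ (spec t Q).roots →
        Ov l S ζ (fun j => x j + u * y j) (ε * (w + t * (w' - w) + c * u)) := by
      intro u
      by_cases hu : u ∈ (spec t Q).roots
      · obtain ⟨ζ, hζ⟩ := exists_ov (l := l) (S := S) (hgoodt t ht u hu)
          (w := ε * (w + t * (w' - w) + c * u)) (by rw [mul_pow, hε, one_mul]; exact hsq t u hu)
          (fun h => absurd h hSne.ne_empty)
        exact ⟨ζ, fun _ => hζ⟩
      · exact ⟨z, fun h => absurd h hu⟩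
    choose ζ hζ using h1
    exact ⟨ζ, fun u hu => hζ u hu⟩
  obtain ⟨a₀, ha₀⟩ := hexp 0 1 (by norm_num) hg0
  obtain ⟨a₁, ha₁⟩ := hexp 1 1 (by norm_num) hg1
  obtain ⟨b₀, hb₀⟩ := hexp 0 (-1) (by norm_num) hg0
  obtain ⟨b₁, hb₁⟩ := hexp 1 (-1) (by norm_num) hg1
  have hgood : ∀ᶠ t : ℂ in Filter.cofinite, ∀ u ∈ (spec t Q).roots, ∀ i,
      (spec t (q i)).eval u ≠ 0 := by
    have h1 : ∀ᶠ t : ℂ in Filter.cofinite, ∀ i,
        (w + c * u₀ i + t * (w' - w)) ^ 2 ≠ f.eval (u₀ i) :=
      Filter.eventually_all.2 fun i => eventually_sq_ne _ _ hww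
    filter_upwards [h1] with t ht u hu i
    rw [hqx]
    refine hgoodt t (fun i => ?_) u hu i
    have h2 : w + t * (w' - w) + c * u₀ i = w + c * u₀ i + t * (w' - w) := by ring
    rw [h2]
    exact ht i
  have key1 := orb_family (l := l) (S := S) (d := 2 * s) (Q := Q) (q := q) (w := P)
    (z₀ := a₀) (z₁ := a₁) (x₀ := fun u j => x j + u * y j) (x₁ := fun u j => x j + u * y j)
    (fun h => absurd h hSne.ne_empty) hQd (fun t u => ⟨_, hqx t u⟩)
    (fun t u hu => by
      rw [hspecPe]
      rw [hspecQe, hfe] at hu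
      rw [sub_eq_zero.1 hu]
      exact Finset.prod_congr rfl fun i _ => (hqe t u i).symm)
    hgood (hQc 0) (hQc 1) (fun u _ i => hqx 0 u i) (fun u _ i => hqx 1 u i)
    (fun u hu => by rw [hspecPe]; simpa using ha₀ u hu)
    (fun u hu => by rw [hspecPe]; simpa using ha₁ u hu)
  have hspecN : ∀ t u, (spec t (-P)).eval u = -(w + t * (w' - w) + c * u) := by
    intro t u
    rw [← hspecPe]
    simp [spec]
  have key2 := orb_family (l := l) (S := S) (d := 2 * s) (Q := Q) (q := q) (w := -P)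
    (z₀ := b₀) (z₁ := b₁) (x₀ := fun u j => x j + u * y j) (x₁ := fun u j => x j + u * y j)
    (fun h => absurd h hSne.ne_empty) hQd (fun t u => ⟨_, hqx t u⟩)
    (fun t u hu => by
      rw [hspecN, neg_sq]
      rw [hspecQe, hfe] at hu
      rw [sub_eq_zero.1 hu]
      exact Finset.prod_congr rfl fun i _ => (hqe t u i).symm)
    hgood (hQc 0) (hQc 1) (fun u _ i => hqx 0 u i) (fun u _ i => hqx 1 u i)
    (fun u hu => by rw [hspecN]; simpa using hb₀ u hu)
    (fun u hu => by rw [hspecN]; simpa using hb₁ u hu)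
  -- away from the special line the two classes agree
  have hagree : ∀ t (a b : ℂ → Cover l), (∀ u ∈ (spec t Q).roots,
        Ov l S (a u) (fun j => x j + u * y j) (1 * (w + t * (w' - w) + c * u))) →
      (∀ u ∈ (spec t Q).roots,
        Ov l S (b u) (fun j => x j + u * y j) (-1 * (w + t * (w' - w) + c * u))) →
      ∀ u ∈ (spec t Q).roots, u ≠ 0 → cl (orb l S (a u)) = cl (orb l S (b u)) := by
    intro t a b ha hb u hu hu0
    have h1 : ev m (fun j => x j + u * y j) ≠ 0 := by
      rw [ev_line, hmx, zero_add]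
      exact mul_ne_zero hu0 hmy
    have h2 := hb u hu
    rw [neg_one_mul] at h2
    have h3 := ha u hu
    rw [one_mul] at h3
    exact h _ h1 _ _ _ h3 h2
  have h10 : ∀ u ∈ (spec 1 Q).roots, u ≠ 0 := by
    rintro u hu rfl
    have h2 := (mem_roots'.1 hu).2
    rw [IsRoot, hspecQe, hfe] at h2
    apply hw1
    simp only [zero_mul, add_zero, mul_zero, one_mul] at h2
    rw [hz.sq_eq]
    have : w + (w' - w) = w' := by ring
    rw [this] at h2
    rw [zero_add, mul_one]
    exact sub_eq_zero.1 h2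
  have hsum1 : ((spec 1 Q).roots.map fun u => cl (orb l S (a₁ u))).sum =
      ((spec 1 Q).roots.map fun u => cl (orb l S (b₁ u))).sum := by
    congr 1
    refine Multiset.map_congr rfl fun u hu => ?_
    exact hagree 1 a₁ b₁ ha₁ hb₁ u hu (h10 u hu)
  obtain ⟨r, hr, hr0⟩ := roots_of_simple (R := spec 0 Q) (by
    rw [hspecQe, hfe]
    simp only [zero_mul, add_zero, mul_zero]
    rw [hz.sq_eq, sub_self]) (by
    rw [hspecQ]
    simp only [derivative_sub, derivative_pow, derivative_add, derivative_C, derivative_mul,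
      derivative_X]
    simp
    intro h0
    apply hc2
    field_simp
    linear_combination h0)
  have h0mem : (0 : ℂ) ∈ (spec 0 Q).roots := by
    rw [hr]
    exact Multiset.mem_cons_self _ _
  have hsum0 : (r.map fun u => cl (orb l S (a₀ u))).sum =
      (r.map fun u => cl (orb l S (b₀ u))).sum := by
    congr 1
    refine Multiset.map_congr rfl fun u hu => ?_
    refine hagree 0 a₀ b₀ ha₀ hb₀ u (by rw [hr]; exact Multiset.mem_cons_of_mem hu) ?_
    rintro rfl
    exact hr0 hu
  have e1 : orb l S (a₀ 0) = orb l S z := by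
    have h1 := ha₀ 0 h0mem
    have h2 : (fun j => x j + (0 : ℂ) * y j) = x := by
      funext j
      ring
    rw [h2, zero_mul, add_zero, mul_zero, add_zero, one_mul] at h1
    exact orb_eq h1 hz
  have e2 : orb l S (b₀ 0) = orb l S z' := by
    have h1 := hb₀ 0 h0mem
    have h2 : (fun j => x j + (0 : ℂ) * y j) = x := by
      funext j
      ring
    rw [h2, zero_mul, add_zero, mul_zero, add_zero, neg_one_mul] at h1
    exact orb_eq h1 hz'
  rw [hr, Multiset.map_cons, Multiset.sum_cons] at key1 key2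
  rw [e1] at key1
  rw [e2, ← hsum1, ← hsum0, ← key1] at key2
  exact (add_right_cancel key2).symm

end Pool.Agent.Kummer2
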