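import Pool.Agent.Kummer2.Albanese

/-!
# The action of the group ring on the kernel of the Albanese map
-/

set_option autoImplicit false
set_option linter.unusedSectionVars false

open scoped LinearAlgebra.Projectivization

namespace Pool.Agent.Kummer2

open Pool.Agent.Chow0

variable {ι : Type} [Fintype ι] [DecidableEq ι] {l : ι → Fin 3 → ℂ}

/-- The element `Γ` of the group ring acts as zero on the holomorphic two-forms: its eigenvalue on
the isotypic part of each character vanishes if the character has nonzero adjoint forms. -/
def ZeroOnTwoForms (l : ι → Fin 3 → ℂ) (Γ : (ι → ℤˣ) → ℤ) : Prop :=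
  ∀ (S : Finset ι) (P : MvPolynomial (Fin 3) ℂ), Even S.card → 6 ≤ S.card →
    IsAdjoint l S P → (eigen Γ S : ℂ) • P = 0

/-- The element `Γ` of the group ring has a nonzero eigenvalue on the isotypic part of the character
attached to some set of `2 s ≥ 4` lines through the point `p`. (The isotypic parts of these
characters contain the holomorphic one-forms pulled back from the curve branched along the lines
through `p`; the other characters with nonzero one-forms have nonzero two-forms. Hence, if `Γ` acts
as zero on the holomorphic one-forms and two-forms, this holds for no point.) -/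
def SeesPencil (l : ι → Fin 3 → ℂ) (Γ : (ι → ℤˣ) → ℤ) (p : Fin 3 → ℂ) : Prop :=
  ∃ S ⊆ thru l Finset.univ p, Even S.card ∧ 4 ≤ S.card ∧ eigen Γ S ≠ 0

/-- The zero-cycle `z` is rationally equivalent to zero. -/
def RatTrivial {κ : Type} [Fintype κ] {V : Set (ℙ ℂ (κ → ℂ))} (z : Z0 V) : Prop := z ∈ ratTriv V

/-- The image of the zero-cycle `z` in the covering branched along the lines with index in `T` is
rationally equivalent to zero. -/
def TrivialImage (l : ι → Fin 3 → ℂ) {T : Finset ι} (hT : T.Nonempty) (z : Z0 (Cover l)) : Prop :=
  RatTrivial (FreeAbelianGroup.map (forget l hT) z)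

/-- The zero-cycle `z` has degree zero and, for each point `p` of the plane which `Γ` sees, its
image in the covering branched along the lines through `p` (an open subset of a curve) is
rationally equivalent to zero. All the zero-cycles of degree zero in the kernel of the Albanese map
have this property, and if `Γ` sees no point then all the zero-cycles of degree zero have it. -/
def AlbaneseTrivial (l : ι → Fin 3 → ℂ) (Γ : (ι → ℤˣ) → ℤ) (z : Z0 (Cover l)) : Prop :=
  deg z = 0 ∧ ∀ p : Fin 3 → ℂ, p ≠ 0 → ∀ hT : (thru l Finset.univ p).Nonempty,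
    SeesPencil l Γ p → TrivialImage l hT z

/-- **The main theorem on the kernel of the Albanese map.** -/
theorem corr_mem_of (hl : Distinct l) {Γ : (ι → ℤˣ) → ℤ} (h2 : ZeroOnTwoForms l Γ)
    {z : Z0 (Cover l)} (hz : deg z = 0)
    (h1 : ∀ p : Fin 3 → ℂ, p ≠ 0 → ∀ hT : (thru l Finset.univ p).Nonempty,
      (∃ S ⊆ thru l Finset.univ p, Even S.card ∧ 4 ≤ S.card ∧ eigen Γ S ≠ 0) →
      FreeAbelianGroup.map (forget l hT) z ∈ ratTriv (Cover fun i : thru l Finset.univ p => l i)) :
    (2 ^ Fintype.card ι : ℤ) • corr l Γ z ∈ ratTriv (Cover l) := by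
  rw [← QuotientAddGroup.eq_zero_iff]
  change toCH0 ((2 ^ Fintype.card ι : ℤ) • corr l Γ z) = 0
  rw [fourier_cycle]
  refine Finset.sum_eq_zero fun S _ => ?_
  by_cases h0 : eigen Γ S = 0
  · rw [h0, zero_smul]
  have hlift : FreeAbelianGroup.lift (iso l S) z = 0 := by
    rcases S.eq_empty_or_nonempty with hS | hS
    · subst hS
      by_cases hne : Nonempty (Cover l)
      · obtain ⟨p₀⟩ := hne
        exact lift_const (a := iso l ∅ p₀) (fun p => iso_empty p p₀) hz
      · have hz0 : z = 0 := by
          refine FreeAbelianGroup.induction_on z rfl ?_ ?_ ?_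
          · intro p; exact absurd ⟨p⟩ hne
          · intro p; exact absurd ⟨p⟩ hne
          · intro a b ha hb; rw [ha, hb, add_zero]
        rw [hz0, map_zero]
    · by_cases hev : Even S.card
      swap
      · exact lift_const (a := 0) (fun p => iso_eq_zero_of_odd hev p) hz
      by_cases hcon : 4 ≤ S.card ∧ Concurrent l S
      · obtain ⟨h4, p, hp, hpS⟩ := hcon
        have hsub : S ⊆ thru l Finset.univ p := fun i hi => mem_thru.2 ⟨Finset.mem_univ i, hpS i hi⟩
        have hT : (thru l Finset.univ p).Nonempty := hS.mono hsub
        have h3 := h1 p hp hT ⟨S, hsub, hev, h4, h0⟩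
        have hup : up (Finset.subtype (fun i => i ∈ thru l Finset.univ p) S) = S := by
          rw [up]
          exact Finset.subtype_map_of_mem hsub
        have hSne : (Finset.subtype (fun i => i ∈ thru l Finset.univ p) S).Nonempty := by
          obtain ⟨i, hi⟩ := hS
          exact ⟨⟨i, hsub hi⟩, Finset.mem_subtype.2 hi⟩
        have hcard := Finset.card_le_card hsub
        have h5 := lift_iso_eq_zero hl hp rfl hT (by omega) hSne h3
        rw [hup] at h5
        exact h5
      · refine lift_const (a := 0) (fun p => ?_) hz
        refine iso_eq_zero hS (van_of_no_adjoint hl hev hS ?_ ?_) p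
        · intro h4 hc
          exact hcon ⟨h4, hc⟩
        · intro h6 P hP
          have h3 := h2 S P hev h6 hP
          rcases smul_eq_zero.1 h3 with h4 | h4
          · exfalso
            apply h0
            exact_mod_cast h4
          · exact h4
  rw [hlift, smul_zero]

end Pool.Agent.Kummer2
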