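import Pool.Agent.Kummer2.Defs

/-!
# Orders of vanishing of ternary forms
-/

set_option autoImplicit false

open Polynomial

namespace Pool.Agent.Kummer2

/-- the restriction of a form to the line `x + T y` -/
noncomputable def restr (P : MvPolynomial (Fin 3) ℂ) (x y : Fin 3 → ℂ) : ℂ[X] :=
  MvPolynomial.aeval (fun j => C (x j) + X * C (y j)) P

lemma eval_restr (P : MvPolynomial (Fin 3) ℂ) (x y : Fin 3 → ℂ) (t : ℂ) :
    (restr P x y).eval t = MvPolynomial.eval (fun j => x j + t * y j) P := by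
  have h : ((Polynomial.evalRingHom t).comp
      (MvPolynomial.aeval (R := ℂ) (fun j => C (x j) + X * C (y j))).toRingHom) =
      MvPolynomial.eval (fun j => x j + t * y j) := by
    ext j
    · simp
    · simp
      ring
  have h2 := congrArg (fun f => f P) h
  exact h2

lemma natDegree_restr_le {P : MvPolynomial (Fin 3) ℂ} {e : ℕ} (hP : P.IsHomogeneous e)
    (x y : Fin 3 → ℂ) : (restr P x y).natDegree ≤ e := by
  have hle : ∀ j, (C (x j) + X * C (y j) : ℂ[X]).natDegree ≤ 1 := by
    intro j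
    refine natDegree_add_le_of_degree_le (by rw [natDegree_C]; exact zero_le_one) ?_
    refine natDegree_mul_le.trans ?_
    rw [natDegree_X, natDegree_C]
  have h := MvPolynomial.aeval_natDegree_le P hP.totalDegree_le
    (fun j => C (x j) + X * C (y j)) hle
  rw [mul_one] at h
  exact h

lemma eval_smul_of_homogeneous {P : MvPolynomial (Fin 3) ℂ} {e : ℕ} (hP : P.IsHomogeneous e)
    (c : ℂ) (x : Fin 3 → ℂ) :
    MvPolynomial.eval (fun j => c * x j) P = c ^ e * MvPolynomial.eval x P := by
  rw [MvPolynomial.eval_eq, MvPolynomial.eval_eq, Finset.mul_sum]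
  refine Finset.sum_congr rfl fun d hd => ?_
  have h1 := hP.degree_eq_sum_deg_support hd
  have h2 : ∏ i ∈ d.support, (c * x i) ^ d i = c ^ e * ∏ i ∈ d.support, x i ^ d i := by
    simp only [mul_pow]
    rw [Finset.prod_mul_distrib, Finset.prod_pow_eq_pow_sum, h1]
  rw [h2]
  ring

/-- The homogeneity identity along a pencil. -/
lemma restr_add_smul {P : MvPolynomial (Fin 3) ℂ} {e : ℕ} (hP : P.IsHomogeneous e)
    (x y : Fin 3 → ℂ) (c : ℂ) :
    restr P x (fun j => c * x j + y j) =
      ∑ j ∈ Finset.range (e + 1), C ((restr P x y).coeff j) * X ^ j * (1 + C c * X) ^ (e - j) := by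
  have hinf : {t : ℂ | 1 + c * t ≠ 0}.Infinite := by
    have : {t : ℂ | ¬ (1 + c * t ≠ 0)}.Finite := by
      by_cases hc : c = 0
      · have : {t : ℂ | ¬ (1 + c * t ≠ 0)} = ∅ := by
          ext t
          simp [hc]
        rw [this]
        exact Set.finite_empty
      · refine (Set.finite_singleton (-c⁻¹)).subset ?_
        intro t ht
        simp only [Set.mem_ofPred_eq, not_not] at ht
        rw [Set.mem_singleton_iff]
        field_simp
        linear_combination ht
    intro hfin
    have h2 := hfin.union this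
    have h3 : {t : ℂ | 1 + c * t ≠ 0} ∪ {t : ℂ | ¬ (1 + c * t ≠ 0)} = Set.univ := by
      ext t
      simp only [Set.mem_union, Set.mem_ofPred_eq, Set.mem_univ, iff_true]
      exact em _
    rw [h3] at h2
    exact Set.infinite_univ h2
  refine eq_of_infinite_eval_eq _ _ (hinf.mono ?_)
  intro t ht
  have ht' : 1 + c * t ≠ 0 := ht
  change _ = _
  have h1 : (restr P x y).eval (t / (1 + c * t)) =
      ∑ j ∈ Finset.range (e + 1), (restr P x y).coeff j * (t / (1 + c * t)) ^ j :=
    eval_eq_sum_range' (Nat.lt_succ_of_le (natDegree_restr_le hP x y)) _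
  have h2 : (fun j => x j + t * (c * x j + y j)) =
      fun j => (1 + c * t) * (x j + t / (1 + c * t) * y j) := by
    funext j
    have h3 : (1 + c * t) * (t / (1 + c * t)) = t := mul_div_cancel₀ t ht'
    linear_combination (-(y j)) * h3
  rw [eval_restr, h2, eval_smul_of_homogeneous hP, ← eval_restr, h1, Finset.mul_sum,
    eval_finsetSum]
  refine Finset.sum_congr rfl fun j hj => ?_
  rw [Finset.mem_range] at hj
  simp only [eval_mul, eval_C, eval_pow, eval_X, eval_add, eval_one]
  have h3 : (1 + c * t) ^ e = (1 + c * t) ^ (e - j) * (1 + c * t) ^ j := by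
    rw [← pow_add]
    congr 1
    omega
  rw [h3, div_pow]
  field_simp

lemma X_pow_dvd_restr {P : MvPolynomial (Fin 3) ℂ} {e : ℕ} (hP : P.IsHomogeneous e)
    {x y : Fin 3 → ℂ} {k : ℕ} (h : X ^ k ∣ restr P x y) (c : ℂ) :
    X ^ k ∣ restr P x (fun j => c * x j + y j) := by
  rw [restr_add_smul hP]
  refine Finset.dvd_sum fun j _ => ?_
  rcases Nat.lt_or_ge j k with hj | hj
  · rw [X_pow_dvd_iff.1 h j hj, C_0, zero_mul, zero_mul]
    exact dvd_zero _
  · exact ((pow_dvd_pow X hj).mul_left _).mul_right _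

/-- scaling of the point -/
lemma restr_smul {P : MvPolynomial (Fin 3) ℂ} {e : ℕ} (hP : P.IsHomogeneous e)
    {c : ℂ} (hc : c ≠ 0) (x y : Fin 3 → ℂ) :
    restr P (fun j => c * x j) y = C (c ^ e) * restr P x (fun j => c⁻¹ * y j) := by
  refine Polynomial.funext fun t => ?_
  have h2 : (fun j => c * x j + t * y j) = fun j => c * (x j + t * (c⁻¹ * y j)) := by
    funext j
    field_simp
  rw [eval_mul, eval_C, eval_restr, eval_restr, h2, eval_smul_of_homogeneous hP]

lemma VanishesTo.smul {P : MvPolynomial (Fin 3) ℂ} {e : ℕ} (hP : P.IsHomogeneous e)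
    {c : ℂ} (hc : c ≠ 0) {x : Fin 3 → ℂ} {k : ℕ} (h : VanishesTo P x k) :
    VanishesTo P (fun j => c * x j) k := by
  intro y
  change X ^ k ∣ restr P _ _
  rw [restr_smul hP hc]
  exact (h _).mul_left _

/-- the restriction of a form to a transversal plane -/
noncomputable def planar (P : MvPolynomial (Fin 3) ℂ) (x u v : Fin 3 → ℂ) :
    MvPolynomial (Fin 2) ℂ :=
  MvPolynomial.aeval (fun j => MvPolynomial.C (x j) + MvPolynomial.X 0 * MvPolynomial.C (u j) +
    MvPolynomial.X 1 * MvPolynomial.C (v j)) P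

lemma aeval_planar (P : MvPolynomial (Fin 3) ℂ) (x u v : Fin 3 → ℂ) (a b : ℂ) :
    MvPolynomial.aeval ![X * C a, X * C b] (planar P x u v) =
      restr P x (fun j => a * u j + b * v j) := by
  have h : ((MvPolynomial.aeval (R := ℂ) ![X * C a, X * C b]).comp
      (MvPolynomial.aeval (R := ℂ) (fun j => MvPolynomial.C (x j) +
        MvPolynomial.X 0 * MvPolynomial.C (u j) + MvPolynomial.X 1 * MvPolynomial.C (v j))) :
      MvPolynomial (Fin 3) ℂ →ₐ[ℂ] ℂ[X]) =
      MvPolynomial.aeval (fun j => C (x j) + X * C (a * u j + b * v j)) := by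
    ext j : 1
    simp [MvPolynomial.algHom_C]
    ring
  have h2 := congrArg (fun f => f P) h
  exact h2

lemma X_pow_dvd_restr_of_planar {P : MvPolynomial (Fin 3) ℂ} {x u v : Fin 3 → ℂ} {k : ℕ}
    (h : ∀ d : Fin 2 →₀ ℕ, d 0 + d 1 < k → (planar P x u v).coeff d = 0) (a b : ℂ) :
    X ^ k ∣ restr P x (fun j => a * u j + b * v j) := by
  rw [← aeval_planar, MvPolynomial.aeval_def, MvPolynomial.eval₂_eq]
  refine Finset.dvd_sum fun d hd => ?_
  have h1 : k ≤ d 0 + d 1 := by
    by_contra hcon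
    push Not at hcon
    exact (MvPolynomial.mem_support_iff.1 hd) (h d hcon)
  refine Dvd.dvd.mul_left ?_ _
  have h2 : ∏ i ∈ d.support, (![X * C a, X * C b] : Fin 2 → ℂ[X]) i ^ d i =
      ∏ i : Fin 2, (![X * C a, X * C b] : Fin 2 → ℂ[X]) i ^ d i := by
    refine Finset.prod_subset (Finset.subset_univ _) fun i _ hi => ?_
    rw [Finsupp.notMem_support_iff.1 hi, pow_zero]
  rw [h2, Fin.prod_univ_two]
  simp only [Matrix.cons_val_zero, Matrix.cons_val_one]
  rw [mul_pow, mul_pow]
  have h3 : (X ^ k : ℂ[X]) ∣ X ^ (d 0 + d 1) := pow_dvd_pow X h1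
  refine h3.trans ⟨C a ^ d 0 * C b ^ d 1, ?_⟩
  rw [pow_add]
  ring

end Pool.Agent.Kummer2
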