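import Pool.Agent.Kummer2.Generic

/-!
# Characters without two-forms
-/

set_option autoImplicit false
set_option linter.unusedSectionVars false

open scoped LinearAlgebra.Projectivization

namespace Pool.Agent.Kummer2

open Pool.Agent.Chow0

variable {ι : Type} [Fintype ι] [DecidableEq ι] {l : ι → Fin 3 → ℂ}

/-- the lines with index in `S` pass through a common point -/
def Concurrent (l : ι → Fin 3 → ℂ) (S : Finset ι) : Prop :=
  ∃ p : Fin 3 → ℂ, p ≠ 0 ∧ ∀ i ∈ S, ev (l i) p = 0

lemma ev_sub_smul (a b x : Fin 3 → ℂ) (c d : ℂ) :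
    ev (fun j => c * a j - d * b j) x = c * ev a x - d * ev b x := by
  simp only [ev, Fin.sum_univ_three]
  ring

/-- **Nearly concurrent lines.** -/
theorem van_of_nearPencil (hl : Distinct l) {S : Finset ι} {s : ℕ} (hs : 1 ≤ s)
    (hcard : S.card = 2 * s) {p : Fin 3 → ℂ} (hmult : 2 * s ≤ mult l S p + 2) {b : ι}
    (hbS : b ∈ S) (hb : ev (l b) p ≠ 0) (x : Fin 3 → ℂ) : Van l S x := by
  rw [mult_eq] at hmult
  obtain ⟨S', hS', hS'c⟩ := Finset.exists_subset_card_eq (s := thru l S p) (n := 2 * (s - 1))
    (by omega)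
  have hbS' : b ∉ S' := fun h => hb (mem_thru.1 (hS' h)).2
  have hsub : insert b S' ⊆ S := by
    intro i hi
    rcases Finset.mem_insert.1 hi with rfl | hi
    · exact hbS
    · exact (mem_thru.1 (hS' hi)).1
  have hc1 : (insert b S').card = 2 * (s - 1) + 1 := by
    rw [Finset.card_insert_of_notMem hbS', hS'c]
  have hc2 : (S \ insert b S').card = 1 := by
    rw [Finset.card_sdiff_of_subset hsub, hc1, hcard]
    omega
  obtain ⟨a, ha⟩ := Finset.card_eq_one.1 hc2
  have haS : a ∈ S \ insert b S' := by rw [ha]; exact Finset.mem_singleton_self a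
  rw [Finset.mem_sdiff, Finset.mem_insert, not_or] at haS
  have hSeq : S = insert a (insert b S') := by
    rw [← Finset.sdiff_union_of_subset hsub, ha]
    rfl
  have hind : LinearIndependent ℂ ![l a, l b] := hl a b haS.2.1
  have hm : (fun j => ev (l b) p * l a j - ev (l a) p * l b j) ≠ 0 := by
    intro h
    rw [LinearIndependent.pair_iff] at hind
    have h1 := hind (ev (l b) p) (-ev (l a) p) (by
      funext j
      have := congrFun h j
      simp only [Pi.add_apply, Pi.smul_apply, smul_eq_mul, Pi.zero_apply] at this ⊢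
      linear_combination this)
    exact hb h1.1
  have hl0 : ∀ i, l i ≠ 0 := by
    intro i
    by_cases hia : i = a
    · rw [hia]
      exact hind.ne_zero 0
    · exact (hl i a hia).ne_zero 0
  refine van_of_generic hs hcard hl0 hm (fun x hx => ?_) x
  rw [ev_sub_smul] at hx
  rw [hSeq]
  refine van_of_line haS.2.2 hbS' haS.2.1 hS'c (p := p) (fun i hi => (mem_thru.1 (hS' hi)).2) ?_
  intro h0
  apply hx
  linear_combination h0

/-- **Characters without two-forms.** -/
theorem van_of_no_adjoint (hl : Distinct l) {S : Finset ι} (hev : Even S.card)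
    (hne : S.Nonempty) (hcon : 4 ≤ S.card → ¬ Concurrent l S)
    (hadj : 6 ≤ S.card → ∀ P, IsAdjoint l S P → P = 0) (x : Fin 3 → ℂ) : Van l S x := by
  obtain ⟨s, hs⟩ := hev
  have hcard : S.card = 2 * s := by omega
  have hpos : 0 < S.card := Finset.card_pos.2 hne
  rcases Nat.lt_or_ge s 2 with h2 | h2
  · -- two lines
    obtain ⟨b, hb⟩ := hne
    have hs1 : s = 1 := by omega
    have hlb : l b ≠ 0 := by
      have hc : 1 < S.card := by omega
      obtain ⟨a, ha, hab⟩ := Finset.exists_mem_ne hc b
      exact (hl b a hab.symm).ne_zero 0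
    obtain ⟨p, hp⟩ := exists_avoid (fun _ : Unit => l b) (fun _ => hlb)
    exact van_of_nearPencil hl (by omega) hcard (p := p) (by omega) hb (hp ()) x
  · have hnc := hcon (by omega)
    rcases Nat.lt_or_ge s 3 with h3 | h3
    · -- four lines
      obtain ⟨i, hi, j, hj, hij⟩ := Finset.one_lt_card.1 (show 1 < S.card by omega)
      have hv := vtx_ne_zero (hl i j hij)
      have hex : ∃ b ∈ S, ev (l b) (vtx (l i) (l j)) ≠ 0 := by
        by_contra h
        push Not at h
        exact hnc ⟨_, hv, h⟩
      obtain ⟨b, hbS, hb⟩ := hex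
      refine van_of_nearPencil hl (by omega) hcard (p := vtx (l i) (l j)) ?_ hbS hb x
      rw [mult_eq]
      have h4 : ({i, j} : Finset ι) ⊆ thru l S (vtx (l i) (l j)) := by
        intro k hk
        rw [Finset.mem_insert, Finset.mem_singleton] at hk
        rcases hk with rfl | rfl
        · exact mem_thru.2 ⟨hi, ev_vtx_left _ _⟩
        · exact mem_thru.2 ⟨hj, ev_vtx_right _ _⟩
      have h5 := Finset.card_le_card h4
      rw [Finset.card_pair hij] at h5
      omega
    · -- at least six lines
      have hex : ∃ p : Fin 3 → ℂ, p ≠ 0 ∧ 2 * s < mult l S p + 3 := by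
        by_contra h
        push Not at h
        obtain ⟨P, hP0, hP⟩ := exists_adjoint hl h3 hcard h
        exact hP0 (hadj (by omega) P hP)
      obtain ⟨p, hp0, hp⟩ := hex
      have hex2 : ∃ b ∈ S, ev (l b) p ≠ 0 := by
        by_contra h
        push Not at h
        exact hnc ⟨_, hp0, h⟩
      obtain ⟨b, hbS, hb⟩ := hex2
      exact van_of_nearPencil hl (by omega) hcard (p := p) (by omega) hbS hb x

end Pool.Agent.Kummer2
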