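import Pool.Agent.Kummer2.Final
import Pool.Agent.Chow0.Functor

/-!
# The curves attached to the points of concurrence
-/

set_option autoImplicit false
set_option linter.unusedSectionVars false

open scoped LinearAlgebra.Projectivization
open Polynomial

namespace Pool.Agent.Kummer2

open Pool.Agent.Chow0

variable {ι : Type} [Fintype ι] [DecidableEq ι] {l : ι → Fin 3 → ℂ}

lemma forget_ne_zero {T : Finset ι} (hT : T.Nonempty) (z : Cover l) :
    (fun i : T => (z : ℙ ℂ (ι → ℂ)).rep i) ≠ 0 := by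
  obtain ⟨i, hi⟩ := hT
  intro h
  exact z.2.1 i (congrFun h ⟨i, hi⟩)

/-- The map which forgets the coordinates with index outside of `T`, from the covering branched
along all the lines onto the covering branched along the lines with index in `T`. -/
noncomputable def forget (l : ι → Fin 3 → ℂ) {T : Finset ι} (hT : T.Nonempty) (z : Cover l) :
    Cover (fun i : T => l i) :=
  ⟨Projectivization.mk ℂ (fun i : T => (z : ℙ ℂ (ι → ℂ)).rep i) (forget_ne_zero hT z), by
    obtain ⟨x, hx⟩ := z.2.2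
    exact mem_cover ⟨forget_ne_zero hT z, rfl⟩ (fun i => z.2.1 i) (x := x) fun i => hx i⟩

lemma isRep_forget {T : Finset ι} (hT : T.Nonempty) (z : Cover l) :
    IsRep (fun i : T => (z : ℙ ℂ (ι → ℂ)).rep i) (forget l hT z : ℙ ℂ (T → ℂ)) :=
  ⟨forget_ne_zero hT z, rfl⟩

omit [Fintype ι] [DecidableEq ι] in
lemma ev_comb' (a x y : Fin 3 → ℂ) (c d : ℂ) :
    ev a (c • x + d • y) = c * ev a x + d * ev a y := by
  simp only [ev, Fin.sum_univ_three, Pi.add_apply, Pi.smul_apply, smul_eq_mul]
  ring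

/-- dual vectors -/
lemma exists_dual {a b : Fin 3 → ℂ} (hab : LinearIndependent ℂ ![a, b]) :
    ∃ e f : Fin 3 → ℂ, ev a e = 1 ∧ ev b e = 0 ∧ ev a f = 0 ∧ ev b f = 1 := by
  obtain ⟨m, hm⟩ := exists_avoid (fun _ : Unit => vtx a b) fun _ => vtx_ne_zero hab
  have hD := hm ()
  set D := ev (vtx a b) m with hDd
  refine ⟨fun j => D⁻¹ * vtx b m j, fun j => D⁻¹ * vtx m a j, ?_, ?_, ?_, ?_⟩
  · rw [ev_smul]
    have : ev a (vtx b m) = D := by
      rw [hDd]
      simp [ev, vtx, Fin.sum_univ_three]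
      ring
    rw [this, inv_mul_cancel₀ hD]
  · rw [ev_smul, ev_vtx_left, mul_zero]
  · rw [ev_smul, ev_vtx_right, mul_zero]
  · rw [ev_smul]
    have : ev b (vtx m a) = D := by
      rw [hDd]
      simp [ev, vtx, Fin.sum_univ_three]
      ring
    rw [this, inv_mul_cancel₀ hD]

/-- the linear forms vanishing at a point are combinations of two of them -/
lemma ev_comb_of_concurrent {a b c e f p : Fin 3 → ℂ} (hab : LinearIndependent ℂ ![a, b])
    (hp : p ≠ 0) (hap : ev a p = 0) (hbp : ev b p = 0) (hcp : ev c p = 0)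
    (h1 : ev a e = 1) (h2 : ev b e = 0) (h3 : ev a f = 0) (h4 : ev b f = 1) (y : Fin 3 → ℂ) :
    ev c y = ev a y * ev c e + ev b y * ev c f := by
  set y' : Fin 3 → ℂ := (1 : ℂ) • y + (1 : ℂ) • ((-ev a y) • e + (-ev b y) • f) with hy'
  have key : ∀ d : Fin 3 → ℂ, ev d y' = ev d y - (ev a y * ev d e + ev b y * ev d f) := by
    intro d
    rw [hy', ev_comb', ev_comb']
    ring
  have ha : ev a y' = 0 := by rw [key, h1, h3]; ring
  have hb : ev b y' = 0 := by rw [key, h2, h4]; ring
  have hc : ev c y' = 0 := by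
    by_cases hy0 : y' = 0
    · rw [hy0]
      simp [ev]
    · obtain ⟨r, -, hr⟩ := exists_smul_of_zero hab hp hy0 hap hbp ha hb
      rw [hr, ev_smul, hcp, mul_zero]
  rw [key] at hc
  linear_combination hc

/-- the class of an orbit depends only on the values of the linear forms with index in `S` -/
lemma cl_orb_eq_of_ov {S : Finset ι} (hS : S.Nonempty) {z z' : Cover l} {x x' : Fin 3 → ℂ} {w : ℂ}
    (h : Ov l S z x w) (h' : Ov l S z' x' w) (hx : ∀ i ∈ S, ev (l i) x = ev (l i) x') :
    cl (orb l S z) = cl (orb l S z') := by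
  have : Nonempty ι := ⟨hS.choose⟩
  refine orb_curve (q := fun i => C (ev (l i) x) + X * C (ev (l i) x' - ev (l i) x)) (w := C w)
    (x₀ := x) (x₁ := x') (fun h0 => absurd h0 hS.ne_empty) ?_ ?_ ?_ ?_ ?_ ?_
  · intro t
    refine ⟨fun j => (1 - t) * x j + t * x' j, fun i => ?_⟩
    rw [ev_comb]
    simp only [eval_add, eval_mul, eval_C, eval_X]
    ring
  · rw [← C_pow, h.sq_eq, map_prod]
    refine Finset.prod_congr rfl fun i hi => ?_
    rw [hx i hi, sub_self, C_0, mul_zero, add_zero]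
  · intro i
    simp
  · intro i
    simp
  · rw [eval_C]
    exact h
  · rw [eval_C]
    exact h'

lemma Ov.scale {S : Finset ι} {z : Cover l} {x : Fin 3 → ℂ} {w c : ℂ} (hc : c ≠ 0)
    (h : Ov l S z x w) : Ov l S z (fun j => c ^ 2 * x j) (c ^ S.card * w) := by
  obtain ⟨v, ⟨hv0, hv1⟩, hv, hx, hw⟩ := h
  refine ⟨c • v, ⟨smul_ne_zero hc hv0, ?_⟩, ?_, ?_, ?_⟩
  · rw [← hv1, Projectivization.mk_eq_mk_iff']
    exact ⟨c, rfl⟩
  · intro i
    exact mul_ne_zero hc (hv i)
  · intro i
    rw [Pi.smul_apply, smul_eq_mul, mul_pow, hx, ev_smul]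
  · rw [← hw]
    simp only [Pi.smul_apply, smul_eq_mul, Finset.prod_mul_distrib, Finset.prod_const]

/-- the isotypic part as a difference -/
lemma iso_eq_sub {S : Finset ι} {z z' : Cover l} {x : Fin 3 → ℂ} {w : ℂ} (hS : S.Nonempty)
    (h : Ov l S z x w) (h' : Ov l S z' x (-w)) :
    iso l S z = cl (orb l S z) - cl (orb l S z') := by
  obtain ⟨i, hi⟩ := hS
  set g₁ : ι → ℤˣ := Function.update 1 i (-1) with hg₁
  have hchi : chi S g₁ = -1 := by
    rw [chi, ← Finset.mul_prod_erase S _ hi, hg₁, Function.update_self, Finset.prod_eq_one, mul_one]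
    intro j hj
    rw [Function.update_of_ne (Finset.ne_of_mem_erase hj)]
    rfl
  obtain ⟨v, hv, hvne, hvx, hvw⟩ := h
  have h2 : Ov l S (act l g₁ z) x (-w) := by
    refine ⟨sg g₁ v, isRep_sg hv, sg_ne_zero hvne, fun j => ?_, ?_⟩
    · rw [sg_sq, hvx]
    · rw [prod_sg, hchi, hvw]
      simp
  have h3 : orb l S z' = orb l S (act l g₁ z) := orb_eq h' h2
  rw [h3, cl_orb, cl_orb]
  have h4 : ∑ g ∈ kr S, pt (act l g (act l g₁ z)) =
      ∑ g ∈ Finset.univ.filter (fun g => ¬ chi S g = 1), pt (act l g z) := by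
    refine Finset.sum_bij' (fun g _ => g * g₁) (fun g _ => g * g₁) ?_ ?_ ?_ ?_ ?_
    · intro g hg
      rw [mem_kr] at hg
      rw [Finset.mem_filter]
      refine ⟨Finset.mem_univ _, ?_⟩
      rw [chi_mul, hg, hchi, one_mul]
      decide
    · intro g hg
      rw [Finset.mem_filter] at hg
      rw [mem_kr, chi_mul, hchi]
      rcases Int.units_eq_one_or (chi S g) with h5 | h5
      · exact absurd h5 hg.2
      · rw [h5]
        decide
    · intro g _
      rw [mul_assoc]
      funext j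
      simp
    · intro g _
      rw [mul_assoc]
      funext j
      simp
    · intro g _
      rw [act_act]
  rw [h4, iso, ← Finset.sum_filter_add_sum_filter_not Finset.univ (fun g => chi S g = 1),
    sub_eq_add_neg]
  congr 1
  · refine Finset.sum_congr rfl fun g hg => ?_
    rw [(Finset.mem_filter.1 hg).2, Units.val_one, one_smul]
  · rw [← Finset.sum_neg_distrib]
    refine Finset.sum_congr rfl fun g hg => ?_
    rcases Int.units_eq_one_or (chi S g) with h5 | h5
    · exact absurd h5 (Finset.mem_filter.1 hg).2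
    · rw [h5, Units.val_neg, Units.val_one, neg_smul, one_smul]

lemma IsChowForm.cl_eq {V : Set (ℙ ℂ (ι → ℂ))} {G : MvPolynomial ι ℂ} {s s' : Multiset V}
    (h : IsChowForm V G s) (h' : IsChowForm V G s') : cl s = cl s' := by
  apply IsLink.cl_eq
  refine ⟨C G, Filter.Eventually.of_forall fun t => ⟨s, ?_⟩, ?_, ?_⟩ <;> rw [eval_C] <;> assumption

end Pool.Agent.Kummer2
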