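import Pool.Agent.Kummer2.Curves
import Pool.Agent.Kummer2.Exists

/-!
# Vanishing for nearly concurrent lines
-/

set_option autoImplicit false
set_option linter.unusedSectionVars false

open scoped LinearAlgebra.Projectivization
open Polynomial

namespace Pool.Agent.Kummer2

open Pool.Agent.Chow0

variable {ι : Type} [Fintype ι] [DecidableEq ι] {l : ι → Fin 3 → ℂ}

/-- the two points of the double plane over `x` give the same class -/
def Van (l : ι → Fin 3 → ℂ) (S : Finset ι) (x : Fin 3 → ℂ) : Prop :=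
  ∀ (z z' : Cover l) (w : ℂ), Ov l S z x w → Ov l S z' x (-w) → cl (orb l S z) = cl (orb l S z')

lemma ev_comb (a x y : Fin 3 → ℂ) (c d : ℂ) :
    ev a (fun j => c * x j + d * y j) = c * ev a x + d * ev a y := by
  simp only [ev, Fin.sum_univ_three]
  ring

theorem van_of_line {S' : Finset ι} {a b : ι} (ha : a ∉ S') (hb : b ∉ S') (hab : a ≠ b) {k : ℕ}
    (hcard : S'.card = 2 * k) {p : Fin 3 → ℂ} (hp : ∀ i ∈ S', ev (l i) p = 0) {x : Fin 3 → ℂ}
    (hΔ : ev (l a) x * ev (l b) p - ev (l a) p * ev (l b) x ≠ 0) :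
    Van l (insert a (insert b S')) x := by
  intro z z' w hz hz'
  have : Nonempty ι := ⟨a⟩
  set S := insert a (insert b S') with hS
  set A := ev (l a) x with hA
  set B := ev (l b) x with hB
  set A' := ev (l a) p with hA'
  set B' := ev (l b) p with hB'
  set Δ := A * B' - A' * B with hΔd
  have hamem : a ∉ insert b S' := by
    rw [Finset.mem_insert]
    rintro (h | h)
    · exact hab h
    · exact ha h
  set α : ℂ[X] := C (A * B' / Δ) - C (A' * B / Δ) * (1 - 2 * X) ^ 2 with hα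
  set β : ℂ[X] := C (A * B / Δ) * ((1 - 2 * X) ^ 2 - 1) with hβ
  have e1 : C (A * B' / Δ) * C A - C (A' * B / Δ) * C A = (C A : ℂ[X]) := by
    rw [← sub_mul, ← C_sub, ← C_mul]
    congr 1
    field_simp
    rw [hΔd]
  have hqa : α * C A + β * C A' = C A := by
    rw [hα, hβ]
    have h1 : (C (A' * B / Δ) * C A : ℂ[X]) = C (A * B / Δ) * C A' := by
      rw [← C_mul, ← C_mul]
      congr 1
      ring
    linear_combination e1 + (-(1 - 2 * X) ^ 2 + 1) * h1
  have e2 : C (A * B' / Δ) * C B - C (A' * B / Δ) * C B = (C B : ℂ[X]) := by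
    rw [← sub_mul, ← C_sub, ← C_mul]
    congr 1
    field_simp
    rw [hΔd]
    ring
  have hqb : α * C B + β * C B' = C B * (1 - 2 * X) ^ 2 := by
    rw [hα, hβ]
    have h1 : (C (A * B' / Δ) * C B : ℂ[X]) = C (A * B / Δ) * C B' := by
      rw [← C_mul, ← C_mul]
      congr 1
      ring
    linear_combination ((1 - 2 * X) ^ 2) * e2 + (1 - (1 - 2 * X) ^ 2) * h1
  have hα0 : ∀ t : ℂ, (1 - 2 * t) ^ 2 = 1 → α.eval t = 1 ∧ β.eval t = 0 := by
    intro t ht
    rw [hα, hβ]
    simp only [eval_sub, eval_mul, eval_C, eval_pow, eval_one, eval_X, eval_ofNat]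
    rw [ht]
    constructor
    · field_simp
      rw [hΔd]
    · ring
  have h0 : (1 - 2 * (0 : ℂ)) ^ 2 = 1 := by norm_num
  have h1 : (1 - 2 * (1 : ℂ)) ^ 2 = 1 := by norm_num
  have hq : ∀ t : ℂ, (1 - 2 * t) ^ 2 = 1 → ∀ i,
      (α * C (ev (l i) x) + β * C (ev (l i) p)).eval t = ev (l i) x := by
    intro t ht i
    rw [eval_add, eval_mul, eval_mul, (hα0 t ht).1, (hα0 t ht).2, eval_C]
    ring
  refine orb_curve (q := fun i => α * C (ev (l i) x) + β * C (ev (l i) p))
    (w := α ^ k * (1 - 2 * X) * C w) (x₀ := x) (x₁ := x) ?_ ?_ ?_ (hq 0 h0) (hq 1 h1) ?_ ?_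
  · intro h
    exact absurd h (Finset.insert_ne_empty _ _)
  · intro t
    refine ⟨fun j => α.eval t * x j + β.eval t * p j, fun i => ?_⟩
    rw [ev_comb, eval_add, eval_mul, eval_mul, eval_C, eval_C]
  · rw [hS, Finset.prod_insert hamem, Finset.prod_insert hb, ← hA, ← hB, ← hA', ← hB', hqa, hqb]
    have h2 : ∏ i ∈ S', (α * C (ev (l i) x) + β * C (ev (l i) p)) =
        α ^ (2 * k) * C (∏ i ∈ S', ev (l i) x) := by
      rw [← hcard, ← Finset.prod_const, map_prod, ← Finset.prod_mul_distrib]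
      refine Finset.prod_congr rfl fun i hi => ?_
      rw [hp i hi, C_0, mul_zero, add_zero]
    have h3 : w ^ 2 = A * (B * ∏ i ∈ S', ev (l i) x) := by
      rw [hz.sq_eq, hS, Finset.prod_insert hamem, Finset.prod_insert hb]
    have h4 : (C w : ℂ[X]) ^ 2 = C A * (C B * C (∏ i ∈ S', ev (l i) x)) := by
      rw [← C_pow, h3, C_mul, C_mul]
    rw [h2, mul_pow, mul_pow, h4, pow_mul' α 2 k]
    ring
  · have : (α ^ k * (1 - 2 * X) * C w).eval 0 = w := by
      simp only [eval_mul, eval_pow, (hα0 0 h0).1, eval_sub, eval_one, eval_X, eval_C, eval_ofNat]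
      ring
    rw [this]
    exact hz
  · have : (α ^ k * (1 - 2 * X) * C w).eval 1 = -w := by
      simp only [eval_mul, eval_pow, (hα0 1 h1).1, eval_sub, eval_one, eval_X, eval_C, eval_ofNat]
      ring
    rw [this]
    exact hz'

end Pool.Agent.Kummer2
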